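import Pool.Agent.T6.H44.MEM.Gi

/-!
Gaussian integers: the least radical of the triples containing a power of a given number, and many
representations.
-/

set_option autoImplicit false

namespace Pool.Agent.T6.H44.MEM.Gi

open Finset NumberField IsDedekindDomain Pool.Agent.H691R3 Pool.Agent.TH876.Loc
open Pool.Agent.TH876.KR (log_Nv_pos' log_nn side rr rr_nonneg rr_sum')
open Pool.Agent.TH402.AK
open Pool.Agent.T6.H44.MEM Pool.Agent.T6.H44.DIV

theorem rad_prod {a b c : GaussianInt} {n : ℕ} (hn : 1 ≤ n) (h : GTri (a, b)) (hc : c ≠ 0)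
    (hs : a + b = c ^ n) :
    2 * Real.log (rad (a * b)) + 2 * Real.log (rad c) = 2 * Real.log (rad (a * b * c)) := by
  have h1 := rr01 h
  have h2 := rr2 h hc (fun Q hQ => by
    rw [hs]
    exact ⟨fun hd => dvd_pow hd (by omega), fun hd => hQ.dvd_of_dvd_pow hd⟩)
  have hpt : Pt (phi (a, b)) := h.tri.pt
  have h3 := rr_sum' hpt
  have h4 : rad (a * b * c) ^ 2 = nn (sp (phi (a, b))) := by
    refine rad_sq _ fun v => ?_
    have h5 : v ∈ sp (phi (a, b)) ↔ e a * e b * (e a + e b) ∈ v.asIdeal := h.tri.mem_sp v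
    have hp := v.isPrime
    rw [h5, ← map_add, hs, map_mul, map_mul, map_pow, hp.mul_mem_iff_mem_or_mem,
      hp.mul_mem_iff_mem_or_mem (y := e c), hp.pow_mem_iff_mem n (by omega)]
  rw [← h4, Real.log_pow] at h3
  push_cast at h3
  linarith

theorem card_roots_le {n : ℕ} (hn : 1 ≤ n) (z : GaussianInt) (G : Finset GaussianInt)
    (hG : ∀ c ∈ G, c ^ n = z) : G.card ≤ n := by
  classical
  have h1 : G ⊆ (Polynomial.nthRoots n z).toFinset := by
    intro c hc
    rw [Multiset.mem_toFinset, Polynomial.mem_nthRoots (by omega)]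
    exact hG c hc
  exact (Finset.card_le_card h1).trans ((Multiset.toFinset_card_le _).trans
    (Polynomial.card_nthRoots n z))

theorem nm_pow (c : GaussianInt) (n : ℕ) : nm (c ^ n) = nm c ^ n := by
  unfold nm
  rw [map_pow, norm_pow]

/-- the numbers `c` for which `c ^ n` lies in a triple of small radical -/
theorem few_exceptions (n : ℕ) (hn : 1 ≤ n) (ε : ℝ) (hε : 0 < ε) (hε1 : ε ≤ 1) :
    ∃ C : ℝ, 0 < C ∧ ∀ X : ℝ, 1 ≤ X → ∀ G : Finset GaussianInt,
    (∀ c ∈ G, c ≠ 0 ∧ nm c ≤ X ∧ ∃ a b : GaussianInt, a ≠ 0 ∧ b ≠ 0 ∧ IsCoprime a b ∧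
      a + b = c ^ n ∧ rad (a * b * c) < nm c ^ (2 - ε)) →
    (G.card : ℝ) ≤ C * X ^ (2 - ε / 2) := by
  classical
  obtain ⟨C1, hC1, h1⟩ := few_rad (ε / 2) (by linarith)
  obtain ⟨C2, hC2, h2⟩ := small_member 1 one_ne_zero n (ε / 2) (by linarith)
  refine ⟨C1 + n * C2, by positivity, fun X hX G hG => ?_⟩
  have hX0 : 0 < X := by linarith
  obtain ⟨R, hR⟩ : ∃ R, R = X ^ (1 - ε / 2) := ⟨_, rfl⟩
  have hR1 : 1 ≤ R := by rw [hR]; exact Real.one_le_rpow hX (by linarith)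
  have hR0 : 0 < R := by linarith
  have hRX : R ≤ X := by
    rw [hR]
    calc X ^ (1 - ε / 2) ≤ X ^ (1 : ℝ) := Real.rpow_le_rpow_of_exponent_le hX (by linarith)
      _ = X := Real.rpow_one X
  have hlogR : Real.log R = (1 - ε / 2) * Real.log X := by rw [hR, Real.log_rpow hX0]
  have hXR : X ^ (ε / 2) * R ^ 2 = X ^ (2 - ε / 2) := by
    rw [hR, ← Real.rpow_natCast, ← Real.rpow_mul hX0.le, ← Real.rpow_add hX0]
    congr 1
    push_cast
    ring
  obtain ⟨G1, hG1⟩ : ∃ G1, G1 = G.filter fun c => rad c ≤ R := ⟨_, rfl⟩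
  obtain ⟨G2, hG2⟩ : ∃ G2, G2 = G.filter fun c => ¬ rad c ≤ R := ⟨_, rfl⟩
  have hcard : (G.card : ℝ) = G1.card + G2.card := by
    have := Finset.card_filter_add_card_filter_not (s := G) (fun c => rad c ≤ R)
    rw [hG1, hG2]
    exact_mod_cast this.symm
  have d1 : (G1.card : ℝ) ≤ C1 * X ^ (2 - ε / 2) := by
    have := h1 X R hR1 hRX G1 (fun c hc => by
      rw [hG1, mem_filter] at hc
      obtain ⟨a1, a2, _⟩ := hG c hc.1
      exact ⟨a1, a2, hc.2⟩)
    rw [mul_assoc, hXR] at this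
    exact this
  have hex : ∀ c : GaussianInt, ∃ p : GaussianInt × GaussianInt, c ∈ G → p.1 ≠ 0 ∧ p.2 ≠ 0 ∧
      IsCoprime p.1 p.2 ∧ p.1 + p.2 = c ^ n ∧ rad (p.1 * p.2 * c) < nm c ^ (2 - ε) := by
    intro c
    by_cases hc : c ∈ G
    · obtain ⟨a1, a2, a, b, a3⟩ := hG c hc
      exact ⟨(a, b), fun _ => a3⟩
    · exact ⟨(0, 0), fun h => absurd h hc⟩
  choose f hf using hex
  obtain ⟨F, hF⟩ : ∃ F, F = G2.image f := ⟨_, rfl⟩
  have e1 : G2.card ≤ n * F.card := by
    rw [hF]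
    refine Finset.card_le_mul_card_image G2 n ?_
    intro p _
    refine card_roots_le hn (p.1 + p.2) _ fun c hc => ?_
    obtain ⟨b1, b2⟩ := Finset.mem_filter.1 hc
    rw [hG2, mem_filter] at b1
    rw [← b2, (hf c b1.1).2.2.2.1]
  have e2 := h2 X R hR1 hRX F (fun p hp => by
    rw [hF, mem_image] at hp
    obtain ⟨c, hc, rfl⟩ := hp
    rw [hG2, mem_filter, not_le] at hc
    obtain ⟨hcG, hcR⟩ := hc
    obtain ⟨a1, a2, _⟩ := hG c hcG
    obtain ⟨b1, b2, b3, b4, b5⟩ := hf c hcG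
    have hcn : c ^ n ≠ 0 := pow_ne_zero n a1
    have hgt : GTri ((f c).1, (f c).2) := ⟨b1, b2, by rw [b4]; exact hcn, b3⟩
    refine ⟨b1, b2, b3, ?_, 1, c ^ n, one_ne_zero, hcn, by rw [b4, one_mul], ?_,
      fun Q _ h => h⟩
    · have h3 := rad_prod hn hgt a1 b4
      have h4 : 0 < rad ((f c).1 * (f c).2 * c) := lt_of_lt_of_le one_pos
        (one_le_rad (mul_ne_zero (mul_ne_zero b1 b2) a1))
      have h5 := Real.log_lt_log h4 b5
      have hnc : 1 ≤ nm c := one_le_nm a1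
      have hnc0 : 0 < nm c := by linarith
      rw [Real.log_rpow hnc0] at h5
      have h6 : Real.log (nm c) ≤ Real.log X := Real.log_le_log hnc0 a2
      have h7 := Real.log_lt_log hR0 hcR
      have h8 : 0 < rad ((f c).1 * (f c).2) := lt_of_lt_of_le one_pos
        (one_le_rad (mul_ne_zero b1 b2))
      rw [← Real.log_le_log_iff h8 hR0]
      have h9 : (2 - ε) * Real.log (nm c) ≤ (2 - ε) * Real.log X :=
        mul_le_mul_of_nonneg_left h6 (by linarith)
      rw [hlogR] at h7 ⊢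
      linarith
    · rw [nm_pow, Real.rpow_natCast]
      exact pow_le_pow_left₀ (nm_nonneg _) a2 n)
  rw [mul_assoc, hXR] at e2
  have e3 : (G2.card : ℝ) ≤ n * F.card := by exact_mod_cast e1
  have e4 : (n : ℝ) * F.card ≤ n * (C2 * X ^ (2 - ε / 2)) :=
    mul_le_mul_of_nonneg_left e2 (Nat.cast_nonneg n)
  rw [hcard]
  calc (G1.card : ℝ) + G2.card ≤ C1 * X ^ (2 - ε / 2) + n * (C2 * X ^ (2 - ε / 2)) := by linarith
    _ = _ := by ring

/-- a triple of small radical containing `c` -/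
theorem upper_radical {c : GaussianInt} (hc : c ≠ 0) (hc1 : c ≠ 1) :
    ∃ a b : GaussianInt, a ≠ 0 ∧ b ≠ 0 ∧ IsCoprime a b ∧ a + b = c ∧
      rad (a * b * c) ≤ 2 * nm c ^ 2 := by
  have h1 : c - 1 ≠ 0 := sub_ne_zero.2 hc1
  refine ⟨1, c - 1, one_ne_zero, h1, isCoprime_one_left, by ring, ?_⟩
  refine (rad_le (mul_ne_zero (mul_ne_zero one_ne_zero h1) hc)).trans ?_
  rw [one_mul, nm_mul]
  have h2 : nm (c - 1) ≤ nm c + 1 := by
    have h3 := nm_add c (-1)
    have h4 : nm (-1) = 1 := by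
      unfold nm
      simp
    rw [h4] at h3
    exact h3
  have h3 := one_le_nm hc
  nlinarith

/-- many representations of a given number -/
theorem many {c : GaussianInt} (hc : c ≠ 0) : ∃ c1 Y0 : ℝ, 0 < c1 ∧ ∀ Y : ℝ, Y0 ≤ Y →
    ∃ F : Finset (GaussianInt × GaussianInt), (∀ p ∈ F, p.1 ≠ 0 ∧ p.2 ≠ 0 ∧ IsCoprime p.1 p.2 ∧
      p.1 + p.2 = c ∧ rad (p.1 * p.2) ≤ Y) ∧ c1 * Y ≤ (F.card : ℝ) := by
  classical
  obtain ⟨m, hm⟩ : ∃ m, m = nm c := ⟨_, rfl⟩
  have hm1 : 1 ≤ m := by rw [hm]; exact one_le_nm hc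
  have hm0 : 0 < m := by linarith
  refine ⟨1 / (128 * m ^ 2), (4 * (1 + m)) ^ 2 + 256 * m ^ 2, by positivity, fun Y hY => ?_⟩
  have hmm : 0 < (4 * (1 + m)) ^ 2 := by positivity
  have hm2 : 0 < m ^ 2 := by positivity
  have hY0 : 0 < Y := by linarith
  obtain ⟨y, hy⟩ : ∃ y, y = Real.sqrt Y := ⟨_, rfl⟩
  have hy2 : y ^ 2 = Y := by rw [hy]; exact Real.sq_sqrt hY0.le
  have hy0 : 0 ≤ y := by rw [hy]; exact Real.sqrt_nonneg Y
  have hy4 : 4 * (1 + m) ≤ y := by
    rw [hy]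
    refine Real.le_sqrt_of_sq_le ?_
    linarith
  obtain ⟨R, hR⟩ : ∃ R, R = y / (2 * m) := ⟨_, rfl⟩
  have hmR : m * R = y / 2 := by rw [hR]; field_simp
  have hR2 : 2 ≤ R := by
    rw [hR, le_div_iff₀ (by positivity)]
    linarith
  obtain ⟨g, hg⟩ : ∃ g : GaussianInt → GaussianInt × GaussianInt,
      g = fun t => (1 + c * t, c - (1 + c * t)) := ⟨_, rfl⟩
  have hginj : Function.Injective g := by
    intro s t hst
    rw [hg] at hst
    have h1 : 1 + c * s = 1 + c * t := congrArg Prod.fst hst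
    exact mul_left_cancel₀ hc (add_left_cancel h1)
  refine ⟨((ball R).image g).filter fun p => p.1 ≠ 0 ∧ p.2 ≠ 0, ?_, ?_⟩
  · intro p hp
    obtain ⟨h1, h2, h3⟩ := Finset.mem_filter.1 hp
    obtain ⟨t, ht, rfl⟩ := Finset.mem_image.1 h1
    rw [mem_ball] at ht
    rw [hg] at h2 h3 ⊢
    simp only at h2 h3 ⊢
    refine ⟨h2, h3, ⟨1 - t, -t, by ring⟩, by ring, ?_⟩
    refine (rad_le (mul_ne_zero h2 h3)).trans ?_
    rw [nm_mul, ← hy2]
    have h4 : nm (1 + c * t) ≤ 1 + y / 2 := by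
      have h5 := nm_add 1 (c * t)
      have h6 : nm 1 = 1 := by
        unfold nm
        simp
      rw [nm_mul, h6, ← hm] at h5
      have h7 : m * nm t ≤ m * R := mul_le_mul_of_nonneg_left ht.2 hm0.le
      linarith
    have h5 : nm (c - (1 + c * t)) ≤ m + (1 + y / 2) := by
      have h6 := nm_add c (-(1 + c * t))
      have h7 : nm (-(1 + c * t)) = nm (1 + c * t) := by
        unfold nm
        rw [map_neg, norm_neg]
      rw [h7, ← hm, ← sub_eq_add_neg] at h6
      linarith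
    have h6 : nm (1 + c * t) ≤ y := by linarith
    have h7 : nm (c - (1 + c * t)) ≤ y := by linarith
    have h8 := nm_nonneg (c - (1 + c * t))
    rw [sq]
    exact mul_le_mul h6 h7 h8 hy0
  · have h1 : (ball R).card = ((ball R).image g).card := by
      rw [Finset.card_image_of_injective _ hginj]
    have h2 := card_ball_ge hR2
    have h3 : (((ball R).image g).filter fun p => ¬ (p.1 ≠ 0 ∧ p.2 ≠ 0)).card ≤ 2 := by
      have h4 : ((ball R).image g).filter (fun p => ¬ (p.1 ≠ 0 ∧ p.2 ≠ 0)) ⊆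
          {((0 : GaussianInt), c), (c, (0 : GaussianInt))} := by
        intro p hp
        obtain ⟨h5, h6⟩ := Finset.mem_filter.1 hp
        obtain ⟨t, ht, rfl⟩ := Finset.mem_image.1 h5
        rw [not_and_or, not_not, not_not] at h6
        rw [Finset.mem_insert, Finset.mem_singleton]
        rw [hg] at h6 ⊢
        simp only at h6 ⊢
        rcases h6 with h6 | h6
        · left
          rw [h6, sub_zero]
        · right
          exact Prod.ext (sub_eq_zero.1 h6).symm h6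
      exact (Finset.card_le_card h4).trans Finset.card_le_two
    have h4 := Finset.card_filter_add_card_filter_not (s := (ball R).image g)
      (fun p => p.1 ≠ 0 ∧ p.2 ≠ 0)
    have h5 : ((((ball R).image g).filter fun p => p.1 ≠ 0 ∧ p.2 ≠ 0).card : ℝ) + 2 ≥
        ((ball R).card : ℝ) := by
      have : (ball R).card ≤ (((ball R).image g).filter fun p => p.1 ≠ 0 ∧ p.2 ≠ 0).card + 2 := by
        omega
      exact_mod_cast this
    have h6 : R ^ 2 / 16 = Y / (64 * m ^ 2) := by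
      rw [hR, div_pow, hy2]
      field_simp
      ring
    have h7 : 2 ≤ Y / (128 * m ^ 2) := by
      rw [le_div_iff₀ (by positivity)]
      linarith
    have h8 : Y / (64 * m ^ 2) = Y / (128 * m ^ 2) + Y / (128 * m ^ 2) := by
      field_simp
      ring
    have h9 : 1 / (128 * m ^ 2) * Y = Y / (128 * m ^ 2) := by ring
    rw [h9]
    linarith

end Pool.Agent.T6.H44.MEM.Gi
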