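import Pool.Agent.T6.H44.MEM.Pairs

/-!
The counting lemmas for an arbitrary family of sets of primes, and the choice of the prescribed
primes when the primes of one side are given.
-/

set_option autoImplicit false

namespace Pool.Agent.T6.H44.MEM

open Finset NumberField IsDedekindDomain Pool.Agent.H691R3 Pool.Agent.TH876.Loc
open Pool.Agent.TH876.KR (InP aw log_Nv_pos' log_nn side mem_side df_eq_zero Light Sc rho rho_gt
  scales all_heights rr_sum' side_sub rr rr_nonneg side_uniq mem_sp_iff side_sum df_int side_disj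
  gd_eq cho_max cho_part cho_union ChoG)
open Pool.Agent.Y728 Pool.Agent.T6.H44.DIV

variable {K : Type} [Field K] [NumberField K]

/-- large heights -/
theorem high_fam {h r : ℕ} {Cc : ℝ} {ε : Fin r → 𝓞 K}
    {g : Pr K → 𝓞 K} (G : GD K h r Cc ε g) {k : ℕ} (hk : 1 ≤ k) (κh : ℕ) (hfam : FamL K k κh) :
    ∃ C : ℝ, 1 ≤ C ∧ ∃ D : ℝ, 0 < D ∧ ∃ X0 : ℝ, 16 ≤ X0 ∧
    ∀ X : ℝ, X0 ≤ X → ∀ U : Finset (Finset (Pr K)), (∀ S ∈ U, nn S ≤ X) →
    ∀ F : Finset K, (∀ x ∈ F, Pt x ∧ hgt x ≤ Real.exp (Real.log X ^ κh) ∧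
      ∃ S ∈ U, ∃ (A B E : Fin 3) (p : Pr K),
        A ≠ B ∧ B ≠ E ∧ A ≠ E ∧ InP k S A B E x p ∧ Nv p ≤ X ∧
        (C * Real.log X) ^ S.card * X ^ (1 / (k : ℝ)) < hgt x) →
    (F.card : ℝ) ≤ D * U.card * X ^ (3 / (k : ℝ)) := by
  classical
  have hk0 : (0 : ℝ) < k := by exact_mod_cast hk
  have h1k : 0 < 1 / (k : ℝ) := by positivity
  obtain ⟨C, hC, Xf, hXf, hfew⟩ := few_primesK G hk h1k κh
  obtain ⟨D, hD, Xg, hXg, hF'⟩ := hfam
  obtain ⟨Q, hQ⟩ : ∃ Q : ℝ, Q = (2 * k) ^ (2 * (k : ℝ)) := ⟨_, rfl⟩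
  refine ⟨C, hC, D, hD, max (max Xf Xg) Q, hXf.trans ((le_max_left _ _).trans (le_max_left _ _)),
    fun X hX U hU F hF => ?_⟩
  have e1 : Xf ≤ X := ((le_max_left _ _).trans (le_max_left _ _)).trans hX
  have e2 : Xg ≤ X := ((le_max_right _ _).trans (le_max_left _ _)).trans hX
  have e4 : Q ≤ X := (le_max_right _ _).trans hX
  have hX16 : 16 ≤ X := hXf.trans e1
  have hX1 : 1 ≤ X := by linarith
  have hXpos : 0 < X := by linarith
  have hlog : 1 ≤ Real.log X := by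
    have := Pool.Agent.TH876.Loc.log_facts hX16
    have := Real.exp_one_gt_d9
    linarith
  -- `log X ≤ X ^ (1/k)`
  have hlogX : Real.log X ≤ X ^ (1 / (k : ℝ)) := by
    have h1 : Real.log X ≤ X ^ (1 / (2 * (k : ℝ))) / (1 / (2 * (k : ℝ))) :=
      Real.log_le_rpow_div hXpos.le (by positivity)
    have h2 : X ^ (1 / (2 * (k : ℝ))) / (1 / (2 * (k : ℝ))) = 2 * k * X ^ (1 / (2 * (k : ℝ))) := by
      field_simp
    have h3 : 2 * (k : ℝ) ≤ X ^ (1 / (2 * (k : ℝ))) := by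
      have h4 : Q ^ (1 / (2 * (k : ℝ))) ≤ X ^ (1 / (2 * (k : ℝ))) :=
        Real.rpow_le_rpow (by rw [hQ]; positivity) e4 (by positivity)
      have h5 : Q ^ (1 / (2 * (k : ℝ))) = 2 * k := by
        rw [hQ, ← Real.rpow_mul (by positivity)]
        have : 2 * (k : ℝ) * (1 / (2 * (k : ℝ))) = 1 := by field_simp
        rw [this, Real.rpow_one]
      linarith
    have h6 : X ^ (1 / (k : ℝ)) = X ^ (1 / (2 * (k : ℝ))) * X ^ (1 / (2 * (k : ℝ))) := by
      rw [← Real.rpow_add hXpos]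
      congr 1
      field_simp
      norm_num
    rw [h6]
    rw [h2] at h1
    exact h1.trans (mul_le_mul_of_nonneg_right h3 (by positivity))
  rcases F.eq_empty_or_nonempty with hFe | ⟨x0, hx0⟩
  · rw [hFe, Finset.card_empty, Nat.cast_zero]
    positivity
  obtain ⟨_, _, _, _, _, _, _, p0, _⟩ := hF x0 hx0
  have hexF : ∀ x : K, ∃ (S : Finset (Pr K)) (A B E : Fin 3) (p : Pr K), x ∈ F →
      S ∈ U ∧
        A ≠ B ∧ B ≠ E ∧ A ≠ E ∧ InP k S A B E x p ∧ Nv p ≤ X ∧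
        (C * Real.log X) ^ S.card * X ^ (1 / (k : ℝ)) < hgt x := by
    intro x
    by_cases hx : x ∈ F
    · obtain ⟨_, _, S, hSU, A, B, E, p, hh⟩ := hF x hx
      exact ⟨S, A, B, E, p, fun _ => ⟨hSU, hh⟩⟩
    · exact ⟨∅, 0, 0, 0, p0, fun h => absurd h hx⟩
  choose Sx Ax Bx Ex px hx using hexF
  obtain ⟨R, hR⟩ : ∃ R : Finset (Pr K) → Finset (Pr K), R = fun S =>
    (F.filter fun x => Sx x = S).image px := ⟨_, rfl⟩
  obtain ⟨W, hW⟩ : ∃ W, W = F.image fun x => insert (px x) (Sx x) := ⟨_, rfl⟩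
  have hRc : ∀ S ∈ U, ((R S).card : ℝ) ≤ X ^ (1 / (k : ℝ)) := by
    intro S hS
    refine hfew X e1 S (R S) (hU S hS) ?_ ?_
    · intro p hp
      rw [hR, Finset.mem_image] at hp
      obtain ⟨x, hx1, rfl⟩ := hp
      obtain ⟨hxF, rfl⟩ := Finset.mem_filter.1 hx1
      obtain ⟨a1, a2, a3, a4, a5, a6, a7⟩ := hx x hxF
      exact ⟨a5.pS, a6⟩
    · intro p hp
      rw [hR, Finset.mem_image] at hp
      obtain ⟨x, hx1, rfl⟩ := hp
      obtain ⟨hxF, rfl⟩ := Finset.mem_filter.1 hx1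
      obtain ⟨a1, a2, a3, a4, a5, a6, a7⟩ := hx x hxF
      exact ⟨Ax x, Bx x, Ex x, x, a2, a3, a4, (hF x hxF).1, a5, a7, (hF x hxF).2.1⟩
  have hWc : (W.card : ℝ) ≤ U.card * X ^ (1 / (k : ℝ)) := by
    have h1 : W ⊆ U.biUnion fun S => (R S).image fun p => insert p S := by
      intro T hT
      rw [hW, Finset.mem_image] at hT
      obtain ⟨x, hxF, rfl⟩ := hT
      rw [Finset.mem_biUnion]
      refine ⟨Sx x, (hx x hxF).1, ?_⟩
      rw [Finset.mem_image]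
      refine ⟨px x, ?_, rfl⟩
      rw [hR, Finset.mem_image]
      exact ⟨x, Finset.mem_filter.2 ⟨hxF, rfl⟩, rfl⟩
    have h2 : W.card ≤ ∑ S ∈ U, (R S).card := by
      refine (Finset.card_le_card h1).trans (Finset.card_biUnion_le.trans ?_)
      exact Finset.sum_le_sum fun S _ => Finset.card_image_le
    have h3 : (W.card : ℝ) ≤ ∑ S ∈ U, ((R S).card : ℝ) := by exact_mod_cast h2
    refine h3.trans ((Finset.sum_le_sum hRc).trans ?_)
    rw [Finset.sum_const, nsmul_eq_mul]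
  have hmain := hF' X e2 W (by
      intro T hT
      rw [hW, Finset.mem_image] at hT
      obtain ⟨x, hxF, rfl⟩ := hT
      obtain ⟨a1, a2, a3, a4, a5, a6, a7⟩ := hx x hxF
      rw [Pool.Agent.Y728.nn_insert a5.pS, sq]
      exact mul_le_mul a6 (hU _ a1) (nn_pos _).le hXpos.le) F (by
      intro x hxF
      obtain ⟨a1, a2, a3, a4, a5, a6, a7⟩ := hx x hxF
      obtain ⟨b1, b2, _⟩ := hF x hxF
      refine ⟨b1, ?_, b2, insert (px x) (Sx x), ?_, InP_light b1 a2 a3 a4 a5⟩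
      · have h1 : 1 ≤ (C * Real.log X) ^ (Sx x).card := one_le_pow₀ (by nlinarith)
        have h2 : 0 ≤ X ^ (1 / (k : ℝ)) := by positivity
        nlinarith
      · rw [hW]
        exact Finset.mem_image_of_mem _ hxF)
  refine hmain.trans ?_
  calc D * W.card * X ^ (2 / (k : ℝ)) ≤ D * (U.card * X ^ (1 / (k : ℝ))) * X ^ (2 / (k : ℝ)) :=
        mul_le_mul_of_nonneg_right (mul_le_mul_of_nonneg_left hWc hD.le) (by positivity)
    _ = D * U.card * (X ^ (1 / (k : ℝ)) * X ^ (2 / (k : ℝ))) := by ring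
    _ = D * U.card * X ^ (3 / (k : ℝ)) := by
        rw [← Real.rpow_add hXpos]
        congr 2
        ring

/-- one scale, small heights -/
theorem low_fam (K : Type) [Field K] [NumberField K] {k : ℕ} (hk : 3 ≤ k) {C η : ℝ}
    (hC : 1 ≤ C) (hη : 0 < η) : ∃ D : ℝ, 0 < D ∧ ∃ X0 : ℝ, 16 ≤ X0 ∧ ∀ X : ℝ, X0 ≤ X →
    ∀ U : Finset (Finset (Pr K)), (∀ S ∈ U, nn S ≤ X ∧
      (C * Real.log X) ^ S.card * X ^ (1 / (k : ℝ)) ≤ X) →
    ∀ l : ℝ, Real.log X ^ (2 + η) ≤ l → ∀ F : Finset K, (∀ x ∈ F, Pt x ∧ Sc k l x ∧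
      ∃ S ∈ U, ∃ (A B E : Fin 3) (p : Pr K),
        A ≠ B ∧ B ≠ E ∧ A ≠ E ∧ InP k S A B E x p ∧ Nv p ≤ X ∧
        l ≤ (C * Real.log X) ^ S.card * X ^ (1 / (k : ℝ))) →
    (F.card : ℝ) ≤ D * X ^ (2 / (k : ℝ)) *
      ∑ S ∈ U, (C * 2 ^ (99 * k) * Real.log X) ^ S.card := by
  classical
  have hk0 : (0 : ℝ) < k := by positivity
  have h1k : 0 < 1 / (k : ℝ) := by positivity
  obtain ⟨C2, hC2⟩ : ∃ C2 : ℝ, C2 = C * 2 ^ (99 * k) := ⟨_, rfl⟩
  obtain ⟨D1, hD1, L0, hL0, hlow⟩ := Pool.Agent.Y515.low_scaleK K (k := k) hk hη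
  refine ⟨D1, hD1, max 16 (Real.exp L0), le_max_left _ _,
    fun X hX U hU l hl F hF => ?_⟩
  rw [← hC2]
  have hXL : Real.exp L0 ≤ X := (le_max_right _ _).trans hX
  have hX16 : 16 ≤ X := (le_max_left _ _).trans hX
  have hX1 : 1 ≤ X := by linarith
  have hX0 : 0 < X := by linarith
  obtain ⟨L, hL⟩ : ∃ L, L = Real.log X := ⟨_, rfl⟩
  have hLL : L0 ≤ L := by rw [hL, Real.le_log_iff_exp_le hX0]; exact hXL
  have hL3 : 3 ≤ L := hL0.trans hLL
  rw [← hL] at hl hF hU ⊢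
  obtain ⟨Fm, hFm⟩ : ∃ Fm : Finset (Pr K) → Finset K, Fm = fun S => F.filter fun x =>
      (∃ (A B E : Fin 3) (p : Pr K), A ≠ B ∧ B ≠ E ∧ A ≠ E ∧ InP k S A B E x p ∧ Nv p ≤ X) ∧
      l ≤ (C * L) ^ S.card * X ^ (1 / (k : ℝ)) := ⟨_, rfl⟩
  have hsub : F ⊆ U.biUnion Fm := by
    intro x hx
    obtain ⟨a1, a2, S, hSU, A, B, E, p, hAB, hBE, hAE, hP, hpX, hlS⟩ := hF x hx
    rw [mem_biUnion]
    refine ⟨S, hSU, ?_⟩
    rw [hFm, mem_filter]
    exact ⟨hx, ⟨A, B, E, p, hAB, hBE, hAE, hP, hpX⟩, hlS⟩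
  have hFmc : ∀ S ∈ U, ((Fm S).card : ℝ) ≤
      D1 * X ^ (1 / (k : ℝ)) * X ^ (1 / (k : ℝ)) * (C2 * L) ^ S.card := by
    intro S hS
    rcases (Fm S).eq_empty_or_nonempty with he | ⟨t0, ht0⟩
    · rw [he, Finset.card_empty, Nat.cast_zero]
      rw [hC2]
      positivity
    · have hSM := (hU S hS).1
      have hlthr : l ≤ (C * L) ^ S.card * X ^ (1 / (k : ℝ)) := by
        rw [hFm, mem_filter] at ht0
        exact ht0.2.2
      have h1 := hlow X hX1 (by rw [← hL]; exact hLL) l (by rw [← hL]; exact hl)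
        (hlthr.trans (hU S hS).2) S hSM (Fm S) (by
          intro t ht
          rw [hFm, mem_filter] at ht
          obtain ⟨b1, b2, -⟩ := ht
          exact ⟨(hF t b1).1, (hF t b1).2.1, b2⟩)
      refine h1.trans ?_
      calc D1 * X ^ (1 / (k : ℝ)) * l * ((2 : ℝ) ^ (99 * k)) ^ S.card ≤
          D1 * X ^ (1 / (k : ℝ)) * ((C * L) ^ S.card * X ^ (1 / (k : ℝ))) *
            ((2 : ℝ) ^ (99 * k)) ^ S.card :=
            mul_le_mul_of_nonneg_right (mul_le_mul_of_nonneg_left hlthr (by positivity))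
              (by positivity)
        _ = D1 * X ^ (1 / (k : ℝ)) * X ^ (1 / (k : ℝ)) * ((C * L) ^ S.card *
            ((2 : ℝ) ^ (99 * k)) ^ S.card) := by ring
        _ = D1 * X ^ (1 / (k : ℝ)) * X ^ (1 / (k : ℝ)) * (C2 * L) ^ S.card := by
            rw [← mul_pow, hC2]
            congr 2
            ring
  have h3 : (F.card : ℝ) ≤ ∑ S ∈ U, ((Fm S).card : ℝ) := by
    have := (Finset.card_le_card hsub).trans Finset.card_biUnion_le
    exact_mod_cast this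
  refine (h3.trans (Finset.sum_le_sum hFmc)).trans ?_
  rw [← Finset.mul_sum]
  refine le_of_eq ?_
  congr 1
  rw [mul_assoc, ← Real.rpow_add hX0]
  congr 2
  ring

theorem out_le {x : K} (hx : Pt x) {S T : Finset (Pr K)} (h : ∀ v ∈ sp x, v ∉ S → v ∈ T) :
    out S x ≤ ∑ v ∈ T, gd (Sum.inr v : Pl K) x := by
  classical
  unfold out
  refine Finset.sum_le_sum_of_subset_of_nonneg ?_ fun v _ _ => gd_nonneg _ hx
  intro v hv
  rw [Finset.mem_sdiff] at hv
  exact h v hv.1 hv.2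

theorem InP_of {k : ℕ} {S : Finset (Pr K)} {A B C : Fin 3} {x : K} {p : Pr K} (h1 : p ∉ S)
    (h2 : p ∈ side B x) (h3 : ∀ q ∈ side B x, q = p ∨ q ∈ S) (h4 : side C x ⊆ S)
    (h5 : hgt x / k ≤ aw A x + ∑ v ∈ S, df (Sum.inr v : Pl K) A x) : InP k S A B C x p := by
  classical
  exact { pS := h1, pB := h2, fB := fun q hq => Finset.mem_insert.2 (h3 q hq), fC := h4, wt := h5 }

/-- one choice of the prescribed primes, the primes of the side `C` being added -/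
theorem cho_with {k : ℕ} (hk : 2 ≤ k) {x : K} (hx : Pt x) (h0 : 0 < hgt x)
    [DecidableEq (Pr K)] {A B C : Fin 3}
    (hAB : A ≠ B) (hBC : B ≠ C) (hAC : A ≠ C) {PA PB : ℝ} (hPB0 : side B x = ∅ → PB = 0)
    (hPB : side B x ≠ ∅ → ∃ v ∈ side B x, PB = Real.log (Nv v)) {Q : Finset (Pr K)}
    (hQ : Q ⊆ side A x)
    (hQw : hgt x / k ≤ aw A x + ∑ v ∈ Q, df (Sum.inr v : Pl K) A x)
    (hQc : ∑ v ∈ Q, Real.log (Nv v) ≤ PA + 2 / k * rr A x) :
    ∃ T : Finset (Pr K), ChoG k (T ∪ side C x) x ∧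
      ∑ v ∈ T, Real.log (Nv v) ≤ rr B x - PB + PA + 2 / k * rr A x := by
  by_cases hB : side B x = ∅
  · refine ⟨Q, Or.inl ?_, ?_⟩
    · have hsub : ∀ v ∈ sp x, v ∉ Q ∪ side C x → v ∈ side A x \ Q := by
        intro v hv1 hv
        rw [Finset.mem_union, not_or] at hv
        obtain ⟨hv3, hv2⟩ := hv
        obtain ⟨i, hi⟩ := (mem_sp_iff hx v).1 hv1
        rcases fin_cases3 hAB hBC hAC i with rfl | rfl | rfl
        · exact Finset.mem_sdiff.2 ⟨hi, hv3⟩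
        · rw [hB] at hi
          exact absurd hi (Finset.notMem_empty v)
        · exact absurd hi hv2
      have h1 : out (Q ∪ side C x) x ≤ ∑ v ∈ side A x \ Q, gd (Sum.inr v : Pl K) x :=
        out_le hx hsub
      have h2 : ∑ v ∈ side A x \ Q, gd (Sum.inr v : Pl K) x =
          ∑ v ∈ side A x \ Q, df (Sum.inr v : Pl K) A x :=
        Finset.sum_congr rfl fun v hv => gd_eq hx (Finset.mem_sdiff.1 hv).1
      have h3 := Finset.sum_sdiff hQ (f := fun v : Pr K => df (Sum.inr v : Pl K) A x)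
      have h4 := side_sum hx A
      show out (Q ∪ side C x) x ≤ (1 - 1 / (k : ℝ)) * hgt x
      have e : (1 - 1 / (k : ℝ)) * hgt x = hgt x - hgt x / k := by ring
      rw [e]
      linarith
    · have h2 : rr B x = 0 := by
        unfold rr
        rw [hB, Finset.sum_empty]
      have h3 := hPB0 hB
      rw [h2, h3]
      linarith
  · obtain ⟨p, hp, hPp⟩ := hPB hB
    refine ⟨(side B x).erase p ∪ Q, Or.inr ⟨A, B, C, p, hAB, hBC, hAC, ?_⟩, ?_⟩
    · refine InP_of ?_ hp ?_ ?_ ?_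
      · intro hm
        rcases Finset.mem_union.1 hm with hm | hm
        · rcases Finset.mem_union.1 hm with hm | hm
          · exact Finset.notMem_erase _ _ hm
          · exact hAB (side_uniq (hQ hm) hp)
        · exact hBC (side_uniq hp hm)
      · intro q hq
        by_cases hqp : q = p
        · exact Or.inl hqp
        · right
          exact Finset.mem_union_left _ (Finset.mem_union_left _ (Finset.mem_erase.2 ⟨hqp, hq⟩))
      · exact Finset.subset_union_right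
      · have h1 : ∑ v ∈ Q, df (Sum.inr v : Pl K) A x ≤
            ∑ v ∈ ((side B x).erase p ∪ Q) ∪ side C x, df (Sum.inr v : Pl K) A x :=
          Finset.sum_le_sum_of_subset_of_nonneg
            (Finset.subset_union_right.trans Finset.subset_union_left)
            fun v _ _ => df_nonneg _ A hx
        linarith
    · have h1 := cho_union ((side B x).erase p) Q
      have h3 := Finset.add_sum_erase (side B x) (fun v : Pr K => Real.log (Nv v)) hp
      have h5 : ∑ v ∈ side B x, Real.log (Nv v) = rr B x := rfl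
      rw [hPp]
      linarith

/-- **the choice** when the primes of the side `C` are given -/
theorem cho_two {k : ℕ} (hk : 2 ≤ k) {x : K} (hx : Pt x) (h0 : 0 < hgt x)
    [DecidableEq (Pr K)] {A B C : Fin 3} (hAB : A ≠ B) (hBC : B ≠ C) (hAC : A ≠ C) :
    ∃ T : Finset (Pr K), ChoG k (T ∪ side C x) x ∧
      ∑ v ∈ T, Real.log (Nv v) ≤ (1 / 2 + 1 / (k : ℝ)) * (rr A x + rr B x) := by
  obtain ⟨PA, hPA, mA, eA, nA⟩ := cho_max A x
  obtain ⟨PB, hPB, mB, eB, nB⟩ := cho_max B x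
  obtain ⟨QA, hQA, wA, cA⟩ := cho_part hk hx h0 A hPA mA
  obtain ⟨QB, hQB, wB, cB⟩ := cho_part hk hx h0 B hPB mB
  obtain ⟨S0, g0, f0⟩ := cho_with hk hx h0 hAB hBC hAC eB nB hQA wA cA
  obtain ⟨S1, g1, f1⟩ := cho_with hk hx h0 hAB.symm hAC hBC eA nA hQB wB cB
  have rA := rr_nonneg A x
  have rB := rr_nonneg B x
  obtain ⟨κ, hκ⟩ : ∃ κ : ℝ, κ = 1 / (k : ℝ) := ⟨_, rfl⟩
  have k2 : (2 : ℝ) / k = 2 * κ := by rw [hκ]; ring
  rw [k2] at f0 f1
  rw [← hκ]
  by_contra hcon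
  push Not at hcon
  have a0 := hcon S0 g0
  have a1 := hcon S1 g1
  nlinarith

end Pool.Agent.T6.H44.MEM
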