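import Pool.Agent.T6.H44.MEM.Pairs

/-!
Points of large height, one side of which has a bounded norm and the two others of which have their
primes in a set of a given family.
-/

set_option autoImplicit false

namespace Pool.Agent.T6.H44.MEM

open Finset NumberField IsDedekindDomain Pool.Agent.H691R3 Pool.Agent.TH876.Loc
open Pool.Agent.TH876.KR (InP aw log_Nv_pos' log_nn side mem_side df_eq_zero Light Sc rho rho_gt
  scales all_heights rr_sum' side_sub rr rr_nonneg side_uniq mem_sp_iff side_sum df_int side_disj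
  gd_eq)
open Pool.Agent.Y728 Pool.Agent.T6.H44.DIV

variable {K : Type} [Field K] [NumberField K]

/-- **points of large height with the primes of two sides in a set of a family** -/
theorem family_count (K : Type) [Field K] [NumberField K] (ε : ℝ) (hε : 0 < ε) :
    ∃ D : ℝ, 0 < D ∧ ∀ X : ℝ, 1 ≤ X → ∀ W : Finset (Finset (Pr K)), (∀ S ∈ W, nn S ≤ X) →
    ∀ F : Finset K, (∀ x ∈ F, Pt x ∧ 2 * Real.log X ≤ hgt x ∧ ∃ φ i j : Fin 3,
      φ ≠ i ∧ i ≠ j ∧ φ ≠ j ∧ finO ∅ φ x ≤ Real.log X ∧ ∃ S ∈ W, side i x ⊆ S ∧ side j x ⊆ S) →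
    (F.card : ℝ) ≤ D * X ^ ε * W.card := by
  classical
  obtain ⟨h, r, Cc, εu, g, G⟩ := exists_GD K
  obtain ⟨k0, hk0⟩ : ∃ k0 : ℕ, 2 / ε ≤ k0 := exists_nat_ge _
  obtain ⟨k, hk⟩ : ∃ k, k = k0 + 9 := ⟨_, rfl⟩
  have hk9 : 9 ≤ k := by omega
  have hk9' : (9 : ℝ) ≤ k := by exact_mod_cast hk9
  have hkp : (0 : ℝ) < k := by linarith
  have hkε : 2 / (k : ℝ) ≤ ε := by
    have h1 : 2 / ε ≤ (k : ℝ) := hk0.trans (by rw [hk]; push_cast; linarith)
    rw [div_le_iff₀ hε] at h1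
    rw [div_le_iff₀ hkp]
    linarith
  obtain ⟨D0, hD0, hall'⟩ := mainK K 1 one_pos
  obtain ⟨Ch, hCh, Xh, hXh, hhuge⟩ := few_high G
  obtain ⟨D1, hD1, X1, hX1, hfam⟩ := Pool.Agent.Y492.fam_lightK K (k := k) (by omega) 9
  obtain ⟨X0, hX0e⟩ : ∃ X0, X0 = max X1 (max Xh (Real.exp (2 ^ 8))) := ⟨_, rfl⟩
  have hX016 : 16 ≤ X0 := by
    rw [hX0e]
    exact hX1.trans (le_max_left _ _)
  have hX0p : 0 < X0 := by linarith
  refine ⟨D0 * (X0 ^ 2) ^ (2 / 3 + 1 : ℝ) + (Ch + D1), by positivity,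
    fun X hX W hWX F hF => ?_⟩
  have hXp : 0 < X := by linarith
  have hXe1 : 1 ≤ X ^ ε := Real.one_le_rpow hX hε.le
  rcases F.eq_empty_or_nonempty with he | ⟨t0, ht0⟩
  · rw [he, Finset.card_empty, Nat.cast_zero]
    positivity
  have hW1 : 1 ≤ (W.card : ℝ) := by
    obtain ⟨_, _, _, _, _, _, _, _, _, S, hS, _⟩ := hF t0 ht0
    exact_mod_cast Finset.card_pos.2 ⟨S, hS⟩
  have hY0 : 1 ≤ X ^ ε * W.card := one_le_mul_of_one_le_of_one_le hXe1 hW1
  have hlogX : 0 ≤ Real.log X := Real.log_nonneg hX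
  have hnn : ∀ x ∈ F, nn (sp x) ≤ X ^ 2 := by
    intro x hx
    obtain ⟨a0, _, φ, i, j, a1, a2, a3, a4, S, hS, a5, a6⟩ := hF x hx
    have h1 : rr i x + rr j x ≤ Real.log X := by
      have h2 : rr i x + rr j x = Real.log (nn (side i x ∪ side j x)) := by
        rw [nn_two a2, Real.log_exp]
      rw [h2]
      exact Real.log_le_log (nn_pos _) ((nn_mono (Finset.union_subset a5 a6)).trans (hWX S hS))
    refine (nn_sp_leO a0 ∅ a1 a2 a3 a4 h1).trans (le_of_eq ?_)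
    have h3 : nn (∅ : Finset (Pr K)) = 1 := Finset.prod_empty
    rw [h3, one_mul, Real.exp_add, Real.exp_log hXp, sq]
  rcases lt_or_ge X X0 with hsm | hlarge
  · -- small `X`
    have h1 := hall' (X ^ 2) (one_le_pow₀ hX) F fun x hx => ⟨(hF x hx).1, hnn x hx⟩
    have h2 : (X ^ 2) ^ (2 / 3 + 1 : ℝ) ≤ (X0 ^ 2) ^ (2 / 3 + 1 : ℝ) :=
      Real.rpow_le_rpow (by positivity) (pow_le_pow_left₀ hXp.le hsm.le 2) (by norm_num)
    have h3 : D0 * (X ^ 2) ^ (2 / 3 + 1 : ℝ) ≤ D0 * (X0 ^ 2) ^ (2 / 3 + 1 : ℝ) :=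
      mul_le_mul_of_nonneg_left h2 hD0.le
    have h4 : 0 ≤ D0 * (X0 ^ 2) ^ (2 / 3 + 1 : ℝ) := by positivity
    rw [mul_assoc]
    nlinarith
  have hXX1 : X1 ≤ X := by
    rw [hX0e] at hlarge
    exact (le_max_left _ _).trans hlarge
  have hXX5 : Xh ≤ X := by
    rw [hX0e] at hlarge
    exact ((le_max_left _ _).trans (le_max_right _ _)).trans hlarge
  have hXL1 : Real.exp (2 ^ 8) ≤ X := by
    rw [hX0e] at hlarge
    exact ((le_max_right _ _).trans (le_max_right _ _)).trans hlarge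
  obtain ⟨L, hL⟩ : ∃ L, L = Real.log X := ⟨_, rfl⟩
  have hL8 : 2 ^ 8 ≤ L := by
    rw [hL, Real.le_log_iff_exp_le hXp]; exact hXL1
  have hL0 : 0 < L := by linarith
  obtain ⟨F2, hF2⟩ : ∃ F2, F2 = F.filter fun x => Real.exp (L ^ 9) < hgt x := ⟨_, rfl⟩
  obtain ⟨F3, hF3⟩ : ∃ F3, F3 = F.filter fun x => ¬ Real.exp (L ^ 9) < hgt x := ⟨_, rfl⟩
  have hcard : (F.card : ℝ) = F2.card + F3.card := by
    have := Finset.card_filter_add_card_filter_not (s := F) (fun x => Real.exp (L ^ 9) < hgt x)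
    rw [hF2, hF3]
    exact_mod_cast this.symm
  have d2 : (F2.card : ℝ) ≤ Ch := by
    have e1 : Xh ≤ X ^ 2 := hXX5.trans (by
      rw [sq]
      exact le_mul_of_one_le_left hXp.le hX)
    refine hhuge (X ^ 2) e1 F2 (fun x hx => ?_)
    rw [hF2, mem_filter] at hx
    refine ⟨(hF x hx.1).1, hnn x hx.1, lt_of_le_of_lt ?_ hx.2⟩
    rw [Real.log_pow, ← hL, Real.exp_le_exp]
    push_cast
    rw [mul_pow]
    calc (2 : ℝ) ^ 8 * L ^ 8 ≤ L * L ^ 8 := mul_le_mul_of_nonneg_right hL8 (by positivity)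
      _ = L ^ 9 := by ring
  have d3 : (F3.card : ℝ) ≤ D1 * (X ^ ε * W.card) := by
    have h1 := hfam X hXX1 W (by
      intro S hS
      refine (hWX S hS).trans ?_
      rw [sq]
      exact le_mul_of_one_le_left hXp.le hX) F3 (by
      intro x hx
      rw [hF3, mem_filter, not_lt] at hx
      obtain ⟨hxF, b2⟩ := hx
      obtain ⟨a0, b1, φ, i, j, a1, a2, a3, a4, S, hS, a5, a6⟩ := hF x hxF
      refine ⟨a0, by linarith, by rw [← hL]; exact b2, S, hS,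
        light_three a0 a1 a2 a3 a5 a6 (Finset.empty_subset S) ?_⟩
      have h1 : 1 / (k : ℝ) ≤ 1 / 2 :=
        div_le_div_of_nonneg_left one_pos.le (by norm_num) (by linarith)
      have h2 : 1 / 2 ≤ 1 - 1 / (k : ℝ) := by linarith
      nlinarith)
    calc (F3.card : ℝ) ≤ D1 * W.card * X ^ (2 / (k : ℝ)) := h1
      _ ≤ D1 * W.card * X ^ ε :=
          mul_le_mul_of_nonneg_left (Real.rpow_le_rpow_of_exponent_le hX hkε) (by positivity)
      _ = _ := by ring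
  have hCh' : Ch ≤ Ch * (X ^ ε * W.card) := le_mul_of_one_le_right hCh.le hY0
  have hPP : 0 ≤ D0 * (X0 ^ 2) ^ (2 / 3 + 1 : ℝ) * (X ^ ε * W.card) := by positivity
  rw [hcard]
  calc (F2.card : ℝ) + F3.card ≤ Ch * (X ^ ε * W.card) + D1 * (X ^ ε * W.card) := by linarith
    _ ≤ (D0 * (X0 ^ 2) ^ (2 / 3 + 1 : ℝ) + (Ch + D1)) * X ^ ε * W.card := by
        linarith only [hPP, mul_assoc (D0 * (X0 ^ 2) ^ (2 / 3 + 1 : ℝ) + (Ch + D1)) (X ^ ε)
          (W.card : ℝ), add_mul (D0 * (X0 ^ 2) ^ (2 / 3 + 1 : ℝ)) (Ch + D1) (X ^ ε * W.card),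
          add_mul Ch D1 (X ^ ε * W.card)]

end Pool.Agent.T6.H44.MEM
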