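import Pool.Agent.T6.H44.DIV.Ide
import Pool.Agent.T6.H44.DIV.Gen

/-!
Ideals of bounded norm with a small radical.
-/

set_option autoImplicit false

namespace Pool.Agent.T6.H44.MEM

open Finset NumberField IsDedekindDomain Pool.Agent.H691R3 Pool.Agent.TH876.Loc
open Pool.Agent.T6.H44.DIV

variable {K : Type} [Field K] [NumberField K]

/-- **the number of ideals of norm at most `X` and radical at most `M`** -/
theorem ideals_rad (K : Type) [Field K] [NumberField K] (ε : ℝ) (hε : 0 < ε) :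
    ∃ D : ℝ, 0 < D ∧ ∀ X : ℝ, 1 ≤ X → ∀ M : ℝ, 1 ≤ M → M ≤ X →
    ∀ G : Finset (Ideal (𝓞 K)), (∀ n ∈ G, ∃ hn : n ≠ 0, ((Ideal.absNorm n : ℕ) : ℝ) ≤ X ∧
      nn (supp n hn) ≤ M) → (G.card : ℝ) ≤ D * X ^ ε * M := by
  classical
  obtain ⟨k0, hk0⟩ : ∃ k0 : ℕ, 2 / ε ≤ k0 := exists_nat_ge _
  obtain ⟨k, hk⟩ : ∃ k, k = k0 + 1 := ⟨_, rfl⟩
  have hk1 : 1 ≤ k := by omega
  have hkp : (0 : ℝ) < k := by exact_mod_cast hk1
  have hkε : 1 / (k : ℝ) ≤ ε / 2 := by
    have h1 : 2 / ε ≤ (k : ℝ) := hk0.trans (by rw [hk]; push_cast; linarith)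
    rw [div_le_iff₀ hε] at h1
    rw [div_le_iff₀ hkp]
    linarith
  obtain ⟨D1, hD1, hide⟩ := ideals_supp K (ε / 2) (by linarith)
  obtain ⟨X2, hX2, hsets⟩ := card_setsM K hk1
  set G0 : Finset (Ideal (𝓞 K)) := (Ideal.finite_setOfPred_absNorm_le ⌊X2⌋₊).toFinset with hG0
  refine ⟨G0.card + D1, by positivity, fun X hX M hM1 hMX G hG => ?_⟩
  have hXp : 0 < X := by linarith
  have hM0 : 0 < M := by linarith
  have hXe : 1 ≤ X ^ ε := Real.one_le_rpow hX hε.le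
  have h1 : 1 ≤ X ^ ε * M := one_le_mul_of_one_le_of_one_le hXe hM1
  rcases lt_or_ge X X2 with hlt | hge
  · have h2 : G ⊆ G0 := by
      intro n hn
      rw [hG0, Set.Finite.mem_toFinset]
      obtain ⟨_, h2, _⟩ := hG n hn
      show Ideal.absNorm n ≤ ⌊X2⌋₊
      exact Nat.le_floor (h2.trans hlt.le)
    have h3 : (G.card : ℝ) ≤ G0.card := by exact_mod_cast Finset.card_le_card h2
    have h4 : (0 : ℝ) ≤ G0.card := Nat.cast_nonneg _
    rw [mul_assoc]
    nlinarith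
  · have hex : ∀ n : Ideal (𝓞 K), ∃ S : Finset (Pr K), n ∈ G → n ≠ 0 ∧
        ((Ideal.absNorm n : ℕ) : ℝ) ≤ X ∧ nn S ≤ M ∧ ∀ v : Pr K, v.asIdeal ∣ n → v ∈ S := by
      intro n
      by_cases hn : n ∈ G
      · obtain ⟨h0, h2, h3⟩ := hG n hn
        exact ⟨supp n h0, fun _ => ⟨h0, h2, h3, fun v hv => mem_supp.2 hv⟩⟩
      · exact ⟨∅, fun h => absurd h hn⟩
    choose Sn hSn using hex
    obtain ⟨U, hU⟩ : ∃ U, U = G.image Sn := ⟨_, rfl⟩
    have hUM : ∀ S ∈ U, nn S ≤ M := by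
      intro S hS
      rw [hU, Finset.mem_image] at hS
      obtain ⟨n, hn, rfl⟩ := hS
      exact (hSn n hn).2.2.1
    have h2 := hsets X hge M hM1 hMX U hUM
    have h3 : (G.card : ℝ) ≤ ∑ S ∈ U, ((G.filter fun n => Sn n = S).card : ℝ) := by
      rw [hU]
      exact_mod_cast (Finset.card_eq_sum_card_image Sn G).le
    have h4 : ∀ S ∈ U, ((G.filter fun n => Sn n = S).card : ℝ) ≤ D1 * X ^ (ε / 2) := by
      intro S hS
      refine hide X hX S (((hUM S hS).trans hMX).trans ?_) _ ?_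
      · rw [sq]
        exact le_mul_of_one_le_left hXp.le hX
      · intro n hn
        obtain ⟨h5, h6⟩ := Finset.mem_filter.1 hn
        obtain ⟨a1, a2, a3, a4⟩ := hSn n h5
        rw [h6] at a4
        exact ⟨a1, a2, a4⟩
    have h5 : (G.card : ℝ) ≤ U.card * (D1 * X ^ (ε / 2)) := by
      refine h3.trans ((Finset.sum_le_sum h4).trans (le_of_eq ?_))
      rw [Finset.sum_const, nsmul_eq_mul]
    have h6 : X ^ (1 / (k : ℝ)) ≤ X ^ (ε / 2) := Real.rpow_le_rpow_of_exponent_le hX hkε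
    have h7 : X ^ ε = X ^ (ε / 2) * X ^ (ε / 2) := by
      rw [← Real.rpow_add hXp]
      congr 1
      ring
    calc (G.card : ℝ) ≤ U.card * (D1 * X ^ (ε / 2)) := h5
      _ ≤ (M * X ^ (1 / (k : ℝ))) * (D1 * X ^ (ε / 2)) :=
          mul_le_mul_of_nonneg_right h2 (by positivity)
      _ ≤ (M * X ^ (ε / 2)) * (D1 * X ^ (ε / 2)) := by
          refine mul_le_mul_of_nonneg_right ?_ (by positivity)
          exact mul_le_mul_of_nonneg_left h6 hM0.le
      _ = D1 * X ^ ε * M := by rw [h7]; ring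
      _ ≤ (G0.card + D1) * X ^ ε * M := by
          have h8 : (0 : ℝ) ≤ G0.card := Nat.cast_nonneg _
          have h9 : 0 ≤ X ^ ε * M := by positivity
          nlinarith

end Pool.Agent.T6.H44.MEM
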