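import Pool.Agent.T6.H44.MEM.Tri
import Pool.Agent.T6.H44.MEM.Idr
import Pool.Agent.TH402.AK.Count

/-!
Gaussian integers: the triples containing a given number.
-/

set_option autoImplicit false

namespace Pool.Agent.T6.H44.MEM.Gi

open Finset NumberField IsDedekindDomain Pool.Agent.H691R3 Pool.Agent.TH876.Loc
open Pool.Agent.TH876.KR (log_Nv_pos' log_nn side rr rr_nonneg rr_sum')
open Pool.Agent.TH402.AK
open Pool.Agent.T6.H44.MEM Pool.Agent.T6.H44.DIV

/-- the primes dividing a number -/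
noncomputable def pd (m : GaussianInt) (hm : m ≠ 0) : Finset (Pr K4) :=
  (fv_support_finite (coe_ne ((map_ne_zero_iff e e.injective).2 hm))).toFinset

theorem mem_pd {m : GaussianInt} (hm : m ≠ 0) (v : Pr K4) : v ∈ pd m hm ↔ e m ∈ v.asIdeal := by
  unfold pd
  rw [Set.Finite.mem_toFinset, Set.mem_ofPred_eq, ← not_iff_not, not_not]
  exact fv_eq_one_iff v (e m)

theorem rad_pd {m : GaussianInt} (hm : m ≠ 0) : rad m ^ 2 = nn (pd m hm) :=
  rad_sq _ (mem_pd hm)

theorem mem_iff_gn (v : Pr K4) (m : GaussianInt) : e m ∈ v.asIdeal ↔ gn v ∣ m := by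
  rw [gn_span v, Ideal.mem_span_singleton]
  exact map_dvd_iff e

theorem one_le_rad {m : GaussianInt} (hm : m ≠ 0) : 1 ≤ rad m := by
  have h1 := rad_pd hm
  have h2 := one_le_nn (pd m hm)
  have h3 := rad_pos m
  by_contra h
  rw [not_le] at h
  have : rad m ^ 2 < 1 := pow_lt_one₀ h3 h (by norm_num)
  linarith

theorem log_nn_pd {m : GaussianInt} (hm : m ≠ 0) :
    Real.log (nn (pd m hm)) = 2 * Real.log (rad m) := by
  rw [← rad_pd hm, Real.log_pow]
  norm_num

theorem gtri {a b : GaussianInt} (ha : a ≠ 0) (hb : b ≠ 0) (h : IsCoprime a b) (hc : a + b ≠ 0) :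
    GTri (a, b) := ⟨ha, hb, hc, h⟩

theorem rr01 {a b : GaussianInt} (h : GTri (a, b)) :
    rr 0 (phi (a, b)) + rr 1 (phi (a, b)) = 2 * Real.log (rad (a * b)) := by
  have hab : a * b ≠ 0 := mul_ne_zero h.1 h.2.1
  rw [← log_nn_pd hab]
  refine rr_two h.tri _ fun v => ?_
  rw [mem_pd hab, map_mul]

theorem rr2 {a b n : GaussianInt} (h : GTri (a, b)) (hn : n ≠ 0)
    (hd : ∀ Q : GaussianInt, Prime Q → (Q ∣ n ↔ Q ∣ a + b)) :
    rr 2 (phi (a, b)) = 2 * Real.log (rad n) := by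
  rw [← log_nn_pd hn]
  refine rr_one h.tri 2 _ fun v => ?_
  have e1 : co (e a) (e b) 2 = e (a + b) := (map_add e a b).symm
  rw [mem_pd hn, e1, mem_iff_gn, mem_iff_gn]
  exact hd _ (gn_prime v)

theorem log_place (s : GaussianInt) :
    ∑ w : InfinitePlace K4, (w.mult : ℝ) * Real.log (w ((e s : 𝓞 K4) : K4)) =
      2 * Real.log (nm s) := by
  have h1 : ∀ w : InfinitePlace K4, (w.mult : ℝ) * Real.log (w ((e s : 𝓞 K4) : K4)) =
      (w.mult : ℝ) * Real.log (nm s) := by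
    intro w
    rw [place_e]
    rfl
  rw [Finset.sum_congr rfl fun w _ => h1 w, ← Finset.sum_mul, ← Nat.cast_sum, sum_mult]
  norm_num

/-- representations with a small member -/
theorem small_member (m : GaussianInt) (hm : m ≠ 0) (B ε : ℝ) (hε : 0 < ε) :
    ∃ C : ℝ, 0 < C ∧ ∀ X Y : ℝ, 1 ≤ Y → Y ≤ X → ∀ F : Finset (GaussianInt × GaussianInt),
    (∀ p ∈ F, p.1 ≠ 0 ∧ p.2 ≠ 0 ∧ IsCoprime p.1 p.2 ∧ rad (p.1 * p.2) ≤ Y ∧
      ∃ u s : GaussianInt, u ≠ 0 ∧ s ≠ 0 ∧ p.1 + p.2 = u * s ∧ nm s ≤ X ^ B ∧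
        ∀ Q : GaussianInt, Prime Q → Q ∣ u → Q ∣ m) →
    (F.card : ℝ) ≤ C * X ^ ε * Y ^ 2 := by
  classical
  obtain ⟨B', hB'⟩ : ∃ B', B' = max B 1 := ⟨_, rfl⟩
  have hB1 : 1 ≤ B' := by rw [hB']; exact le_max_right _ _
  have hBB : B ≤ B' := by rw [hB']; exact le_max_left _ _
  obtain ⟨D, hD, hmain⟩ := pairs_count K4 (pd m hm) B' (ε / 2) hB1 (by linarith)
  refine ⟨4 * D, by linarith, fun X Y hY hYX F hF => ?_⟩
  have hX : 1 ≤ X := hY.trans hYX
  have hX0 : 0 < X := by linarith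
  have hY0 : 0 < Y := by linarith
  have hlogX : 0 ≤ Real.log X := Real.log_nonneg hX
  have hg : ∀ p ∈ F, GTri p := by
    intro p hp
    obtain ⟨h1, h2, h3, h4, u, s, h5, h6, h7, h8, h9⟩ := hF p hp
    exact ⟨h1, h2, by rw [h7]; exact mul_ne_zero h5 h6, h3⟩
  have h1 := card_le_four F hg
  have h2 := hmain (X ^ 2) (one_le_pow₀ hX) (Y ^ 2) (one_le_pow₀ hY)
    (pow_le_pow_left₀ hY0.le hYX 2) (F.image phi) (by
    intro x hx
    obtain ⟨p, hp, rfl⟩ := Finset.mem_image.1 hx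
    obtain ⟨a, b⟩ := p
    obtain ⟨h1, h2, h3, h4, u, s, h5, h6, h7, h8, h9⟩ := hF _ hp
    have hgt := hg _ hp
    simp only at h1 h2 h3 h4 h7
    refine ⟨hgt.tri.pt, 2, 0, 1, by decide, by decide, by decide, ?_, ?_⟩
    · have e1 : co (e a) (e b) 2 = e u * e s := by
        rw [← map_mul, ← h7]
        exact (map_add e a b).symm
      have h10 := finO_le hgt.tri (pd m hm) 2 e1 ((map_ne_zero_iff e e.injective).2 h6) (by
        intro v hv
        rw [mem_pd, mem_iff_gn]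
        rw [mem_iff_gn] at hv
        exact h9 _ (gn_prime v) hv)
      rw [log_place] at h10
      refine h10.trans ?_
      have h11 : Real.log (nm s) ≤ B * Real.log X := by
        rw [← Real.log_rpow hX0]
        exact Real.log_le_log (lt_of_lt_of_le one_pos (one_le_nm h6)) h8
      have h12 : B * Real.log X ≤ B' * Real.log X := mul_le_mul_of_nonneg_right hBB hlogX
      rw [Real.log_pow]
      push_cast
      linarith
    · rw [rr01 hgt, Real.log_pow]
      push_cast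
      have h13 := Real.log_le_log (lt_of_lt_of_le one_pos (one_le_rad (mul_ne_zero h1 h2))) h4
      linarith)
  have h3 : (X ^ 2 : ℝ) ^ (ε / 2) = X ^ ε := by
    rw [← Real.rpow_natCast, ← Real.rpow_mul hX0.le]
    congr 1
    push_cast
    ring
  rw [h3] at h2
  have h4 : (F.card : ℝ) ≤ 4 * ((F.image phi).card : ℝ) := by exact_mod_cast h1
  calc (F.card : ℝ) ≤ 4 * ((F.image phi).card : ℝ) := h4
    _ ≤ 4 * (D * X ^ ε * Y ^ 2) := by linarith
    _ = _ := by ring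

/-- representations with a member composed of given primes -/
theorem given_primes (m : GaussianInt) (hm : m ≠ 0) (ε : ℝ) (hε : 0 < ε) :
    ∃ C : ℝ, 0 < C ∧ ∀ Y : ℝ, 1 ≤ Y → ∀ F : Finset (GaussianInt × GaussianInt),
    (∀ p ∈ F, p.1 ≠ 0 ∧ p.2 ≠ 0 ∧ p.1 + p.2 ≠ 0 ∧ IsCoprime p.1 p.2 ∧ rad (p.1 * p.2) ≤ Y ∧
      ∀ Q : GaussianInt, Prime Q → Q ∣ p.1 + p.2 → Q ∣ m) →
    (F.card : ℝ) ≤ C * Y ^ (1 + ε) := by
  classical
  obtain ⟨D, hD, hmain⟩ := unit_member K4 (pd m hm) (ε / 2) (by linarith)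
  obtain ⟨N, hN⟩ : ∃ N, N = nn (pd m hm) := ⟨_, rfl⟩
  have hN1 : 1 ≤ N := by rw [hN]; exact one_le_nn _
  have hN0 : 0 < N := by linarith
  refine ⟨4 * (D * N ^ (1 / 2 + ε / 2)), by positivity, fun Y hY F hF => ?_⟩
  have hY0 : 0 < Y := by linarith
  have hg : ∀ p ∈ F, GTri p := by
    intro p hp
    obtain ⟨h1, h2, h3, h4, h5, h6⟩ := hF p hp
    exact ⟨h1, h2, h3, h4⟩
  have h1 := card_le_four F hg
  have h2 := hmain (N * Y ^ 2) (one_le_mul_of_one_le_of_one_le hN1 (one_le_pow₀ hY))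
    (F.image phi) (by
    intro x hx
    obtain ⟨p, hp, rfl⟩ := Finset.mem_image.1 hx
    obtain ⟨a, b⟩ := p
    obtain ⟨h1, h2, h3, h4, h5, h6⟩ := hF _ hp
    have hgt := hg _ hp
    simp only at h1 h2 h3 h4 h5 h6
    have hsub : side 2 (phi (a, b)) ⊆ pd m hm := by
      intro v hv
      have h7 := (mem_side_pt hgt.tri v 2).1 hv
      have e1 : co (e a) (e b) 2 = e (a + b) := (map_add e a b).symm
      rw [e1, mem_iff_gn] at h7
      rw [mem_pd, mem_iff_gn]
      exact h6 _ (gn_prime v) h7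
    refine ⟨hgt.tri.pt, ⟨2, hsub⟩, ?_⟩
    have hpt : Pt (phi (a, b)) := hgt.tri.pt
    rw [← Real.log_le_log_iff (nn_pos _) (by positivity), ← rr_sum' hpt,
      Real.log_mul hN0.ne' (by positivity), Real.log_pow]
    have h8 := rr01 hgt
    have h9 := Real.log_le_log (lt_of_lt_of_le one_pos (one_le_rad (mul_ne_zero h1 h2))) h5
    have h10 : rr 2 (phi (a, b)) ≤ Real.log N := by
      have : rr 2 (phi (a, b)) = Real.log (nn (side 2 (phi (a, b)))) := by
        rw [log_nn]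
        rfl
      rw [this, hN]
      exact Real.log_le_log (nn_pos _) (nn_mono hsub)
    have h11 : rr 0 (phi (a, b)) + rr 1 (phi (a, b)) + rr 2 (phi (a, b)) ≤
        Real.log N + 2 * Real.log Y := by linarith
    push_cast
    exact h11)
  have h3 : (N * Y ^ 2 : ℝ) ^ (1 / 2 + ε / 2) = N ^ (1 / 2 + ε / 2) * Y ^ (1 + ε) := by
    rw [Real.mul_rpow hN0.le (by positivity), ← Real.rpow_natCast, ← Real.rpow_mul hY0.le]
    congr 2
    push_cast
    ring
  rw [h3] at h2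
  have h4 : (F.card : ℝ) ≤ 4 * ((F.image phi).card : ℝ) := by exact_mod_cast h1
  calc (F.card : ℝ) ≤ 4 * ((F.image phi).card : ℝ) := h4
    _ ≤ 4 * (D * (N ^ (1 / 2 + ε / 2) * Y ^ (1 + ε))) := by linarith
    _ = _ := by ring

/-- Gaussian integers with a small radical -/
theorem few_rad (ε : ℝ) (hε : 0 < ε) :
    ∃ C : ℝ, 0 < C ∧ ∀ X R : ℝ, 1 ≤ R → R ≤ X → ∀ G : Finset GaussianInt,
    (∀ c ∈ G, c ≠ 0 ∧ nm c ≤ X ∧ rad c ≤ R) → (G.card : ℝ) ≤ C * X ^ ε * R ^ 2 := by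
  classical
  obtain ⟨D, hD, hmain⟩ := ideals_rad K4 (ε / 2) (by linarith)
  refine ⟨4 * D, by linarith, fun X R hR hRX G hG => ?_⟩
  have hX : 1 ≤ X := hR.trans hRX
  have hX0 : 0 < X := by linarith
  have hR0 : 0 < R := by linarith
  obtain ⟨f, hf⟩ : ∃ f : GaussianInt → Ideal (𝓞 K4), f = fun c => Ideal.span {e c} := ⟨_, rfl⟩
  have h1 : G.card ≤ 4 * (G.image f).card := by
    refine Finset.card_le_mul_card_image G 4 ?_
    intro x hx
    obtain ⟨c, hc, rfl⟩ := Finset.mem_image.1 hx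
    have h1 : G.filter (fun a => f a = f c) ⊆
        ({1, -1, ⟨0, 1⟩, ⟨0, -1⟩} : Finset GaussianInt).image (fun u => c * u) := by
      intro d hd
      obtain ⟨h2, h3⟩ := Finset.mem_filter.1 hd
      rw [hf] at h3
      simp only at h3
      rw [Ideal.span_singleton_eq_span_singleton] at h3
      have h4 : Associated c d := by
        have := (h3.symm).map e.symm
        simpa using this
      obtain ⟨u, hu⟩ := h4
      rw [Finset.mem_image]
      refine ⟨u, ?_, hu⟩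
      rcases unit_cases u.isUnit with h | h | h | h <;> rw [h] <;> simp
    exact (Finset.card_le_card h1).trans (Finset.card_image_le.trans Finset.card_le_four)
  have h2 := hmain (X ^ 2) (one_le_pow₀ hX) (R ^ 2) (one_le_pow₀ hR)
    (pow_le_pow_left₀ hR0.le hRX 2) (G.image f) (by
    intro n hn
    obtain ⟨c, hc, rfl⟩ := Finset.mem_image.1 hn
    obtain ⟨h1, h2, h3⟩ := hG c hc
    have hn0 : f c ≠ 0 := by
      rw [hf]
      simp only
      rw [Ideal.zero_eq_bot, Ne, Ideal.span_singleton_eq_bot]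
      exact (map_ne_zero_iff e e.injective).2 h1
    refine ⟨hn0, ?_, ?_⟩
    · rw [hf]
      simp only
      rw [absNorm_e]
      exact pow_le_pow_left₀ (norm_nonneg _) h2 2
    · have h4 : rad c ^ 2 = nn (supp (f c) hn0) := by
        refine rad_sq _ fun v => ?_
        rw [mem_supp, hf]
        simp only
        rw [Ideal.dvd_span_singleton]
      rw [← h4]
      exact pow_le_pow_left₀ (rad_pos _) h3 2)
  have h3 : (X ^ 2 : ℝ) ^ (ε / 2) = X ^ ε := by
    rw [← Real.rpow_natCast, ← Real.rpow_mul hX0.le]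
    congr 1
    push_cast
    ring
  rw [h3] at h2
  have h4 : (G.card : ℝ) ≤ 4 * ((G.image f).card : ℝ) := by exact_mod_cast h1
  calc (G.card : ℝ) ≤ 4 * ((G.image f).card : ℝ) := h4
    _ ≤ 4 * (D * X ^ ε * R ^ 2) := by linarith
    _ = _ := by ring

end Pool.Agent.T6.H44.MEM.Gi
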