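import Pool.Agent.T6.H44.MEM.Unit
import Pool.Agent.TH402.AK.Base

/-!
The sides of the point of a coprime pair of integers of a number field.
-/

set_option autoImplicit false

namespace Pool.Agent.T6.H44.MEM

open Finset NumberField IsDedekindDomain Pool.Agent.H691R3 Pool.Agent.TH876.Loc
open Pool.Agent.TH876.KR (log_Nv_pos' log_nn side mem_side df_inr rr rr_nonneg)
open Pool.Agent.TH402.AK (Tri pt coe_ne pt_add_one fv_le_one fv_eq_one_iff not_both)

variable {K : Type} [Field K] [NumberField K]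

/-- the three members -/
def co (a b : 𝓞 K) (i : Fin 3) : 𝓞 K := ![a, b, a + b] i

omit [NumberField K] in
theorem co_ne {a b : 𝓞 K} (h : Tri a b) (i : Fin 3) : co a b i ≠ 0 := by
  fin_cases i
  · exact h.a0
  · exact h.b0
  · exact h.c0

theorem M_pt {a b : 𝓞 K} (h : Tri a b) (v : Pr K) :
    M (Sum.inr v : Pl K) (pt a b) = 1 / fv v (b : K) := by
  have hb0 := coe_ne h.b0
  have hbpos : 0 < fv v (b : K) := (fv v).pos hb0
  show max (fv v (pt a b)) (max (fv v (1 : K)) (fv v (-(pt a b) - 1))) = _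
  have e1 : -(pt a b) - 1 = -(pt a b + 1) := by ring
  rw [e1, (fv v).map_neg, pt_add_one h.b0]
  unfold pt
  rw [map_div₀, map_div₀, map_one]
  have h3 := fv_le_one v a
  have h4 := fv_le_one v b
  have h5 := fv_le_one v (a + b)
  have h6 : (1 : ℝ) ≤ 1 / fv v (b : K) := by
    rw [le_div_iff₀ hbpos, one_mul]
    exact h4
  refine le_antisymm ?_ ?_
  · refine max_le ?_ (max_le h6 ?_)
    · exact div_le_div_of_nonneg_right h3 hbpos.le
    · exact div_le_div_of_nonneg_right h5 hbpos.le
  · by_cases hbm : b ∈ v.asIdeal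
    · have ha : a ∉ v.asIdeal := fun ha => not_both h.cop v ha hbm
      rw [(fv_eq_one_iff v a).2 ha]
      exact le_max_left _ _
    · rw [(fv_eq_one_iff v b).2 hbm]
      norm_num

theorem df_pt {a b : 𝓞 K} (h : Tri a b) (v : Pr K) (i : Fin 3) :
    df (Sum.inr v : Pl K) i (pt a b) = -Real.log (fv v (co a b i : K)) := by
  have hb0 := coe_ne h.b0
  have hbpos : 0 < fv v (b : K) := (fv v).pos hb0
  have ha0 : 0 < fv v (a : K) := (fv v).pos (coe_ne h.a0)
  have hc0 : 0 < fv v ((a + b : 𝓞 K) : K) := (fv v).pos (coe_ne h.c0)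
  rw [df_inr, M_pt h, one_div, Real.log_inv]
  fin_cases i
  · show _ - Real.log (fv v (pt a b)) = -Real.log (fv v (a : K))
    unfold pt
    rw [map_div₀, Real.log_div ha0.ne' hbpos.ne']
    ring
  · show _ - Real.log (fv v (1 : K)) = -Real.log (fv v (b : K))
    rw [map_one, Real.log_one, sub_zero]
  · show _ - Real.log (fv v (-(pt a b) - 1)) = -Real.log (fv v ((a + b : 𝓞 K) : K))
    have e1 : -(pt a b) - 1 = -(pt a b + 1) := by ring
    rw [e1, (fv v).map_neg, pt_add_one h.b0, map_div₀, Real.log_div hc0.ne' hbpos.ne']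
    ring

theorem mem_side_pt {a b : 𝓞 K} (h : Tri a b) (v : Pr K) (i : Fin 3) :
    v ∈ side i (pt a b) ↔ co a b i ∈ v.asIdeal := by
  rw [mem_side h.pt, df_pt h, ← Pool.Agent.TH402.AK.fv_lt_one_iff]
  have h0 : 0 < fv v (co a b i : K) := (fv v).pos (coe_ne (co_ne h i))
  constructor
  · intro h1
    by_contra h2
    rw [not_lt] at h2
    have := Real.log_nonneg h2
    linarith
  · intro h1
    have := Real.log_neg h0 h1
    linarith

/-- the part of a member prime to given primes is at most the norm of a divisor -/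
theorem finO_le {a b : 𝓞 K} (h : Tri a b) (S : Finset (Pr K)) (i : Fin 3) {u s : 𝓞 K}
    (hus : co a b i = u * s) (hs : s ≠ 0) (hu : ∀ v : Pr K, u ∈ v.asIdeal → v ∈ S) :
    finO S i (pt a b) ≤ ∑ w : InfinitePlace K, (w.mult : ℝ) * Real.log (w (s : K)) := by
  classical
  have hs0 := coe_ne hs
  have hfin := fv_support_finite hs0
  have h1 := sum_lg (V := hfin.toFinset ∪ side i (pt a b)) hs0 (by
    intro v hv
    by_contra hcon
    apply hv
    refine Finset.mem_union_left _ ?_
    rw [Set.Finite.mem_toFinset]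
    exact hcon)
  rw [sum_Spl] at h1
  have e3 : ∀ v : Pr K, lg (Sum.inr v : Pl K) (s : K) = Real.log (fv v (s : K)) := by
    intro v
    show 1 * Real.log (fv v (s : K)) = _
    rw [one_mul]
  have e4 : ∀ w : InfinitePlace K, lg (Sum.inl w : Pl K) (s : K) = (w.mult : ℝ) *
      Real.log (w (s : K)) := fun w => rfl
  simp only [e3, e4] at h1
  have h2 : finO S i (pt a b) ≤
      ∑ v ∈ hfin.toFinset ∪ side i (pt a b), -Real.log (fv v (s : K)) := by
    unfold finO
    refine le_trans (le_of_eq (Finset.sum_congr rfl (g := fun v => -Real.log (fv v (s : K)))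
      fun v hv => ?_)) ?_
    · have h3 : u ∉ v.asIdeal := fun h4 => (Finset.mem_filter.1 hv).2 (hu v h4)
      rw [df_pt h, hus]
      push_cast
      rw [map_mul, (fv_eq_one_iff v u).2 h3, one_mul]
    · refine Finset.sum_le_sum_of_subset_of_nonneg ?_ fun v _ _ => ?_
      · exact (Finset.filter_subset _ _).trans Finset.subset_union_right
      · have h5 := fv_le_one v s
        have h6 : 0 < fv v (s : K) := (fv v).pos hs0
        have := Real.log_nonpos h6.le h5
        linarith
  rw [Finset.sum_neg_distrib] at h2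
  linarith

/-- the sum of the logarithms of the radicals of the first two sides -/
theorem rr_two {a b : 𝓞 K} (h : Tri a b) (T : Finset (Pr K))
    (hT : ∀ v, v ∈ T ↔ a * b ∈ v.asIdeal) : rr 0 (pt a b) + rr 1 (pt a b) = Real.log (nn T) := by
  classical
  have h1 := Pool.Agent.TH876.KR.side_disj (x := pt a b) (i := 0) (j := 1) (by decide)
  have h2 : T = side 0 (pt a b) ∪ side 1 (pt a b) := by
    ext v
    rw [hT, Finset.mem_union, mem_side_pt h, mem_side_pt h, v.isPrime.mul_mem_iff_mem_or_mem]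
    rfl
  rw [log_nn, h2, Finset.sum_union h1]
  rfl

/-- the logarithm of the radical of a side -/
theorem rr_one {a b : 𝓞 K} (h : Tri a b) (i : Fin 3) (T : Finset (Pr K))
    (hT : ∀ v, v ∈ T ↔ co a b i ∈ v.asIdeal) : rr i (pt a b) = Real.log (nn T) := by
  have h2 : T = side i (pt a b) := by
    ext v
    rw [hT, mem_side_pt h]
  rw [log_nn, h2]
  rfl

end Pool.Agent.T6.H44.MEM
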