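import Pool.Agent.T6.H44.MEM.FamC
import Pool.Agent.T6.H44.MEM.Tri
import Pool.Agent.H813R3.Abc.A
import Pool.Agent.R931.IR.RatPlace
import Pool.Agent.R479.HK.Triples

/-!
Coprime triples of natural numbers as points over `ℚ`.
-/

set_option autoImplicit false

namespace Pool.Agent.T6.H44.MEM.Nt

open Finset NumberField IsDedekindDomain Pool.Agent.H691R3 Pool.Agent.TH876.Loc
open Pool.Agent.TH876.KR (log_Nv_pos' log_nn side rr rr_nonneg rr_sum' mem_sp_iff)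
open Pool.Agent.TH402.AK (Tri pt coe_ne pt_add_one)
open Pool.Agent.H813R3.Abc (pr pr_prime pr_inj dvd_iff)
open Pool.Agent.H785R2.ABC (rad)

theorem Nv_pr (v : Pr ℚ) : Nv v = (pr v : ℝ) := by
  have h := Pool.Agent.R931.IR.absNorm_eq (pr_prime v) ((dvd_iff v (pr v)).1 dvd_rfl)
  show ((Ideal.absNorm v.asIdeal : ℕ) : ℝ) = _
  rw [h]

theorem exists_pr {p : ℕ} (hp : p.Prime) : ∃ v : Pr ℚ, pr v = p := by
  obtain ⟨v, hv⟩ := Pool.Agent.R931.IR.exists_above hp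
  refine ⟨v, ?_⟩
  exact (Nat.prime_dvd_prime_iff_eq (pr_prime v) hp).1 ((dvd_iff v p).2 hv)

/-- the places dividing a number -/
noncomputable def pd (n : ℕ) : Finset (Pr ℚ) := n.primeFactors.preimage pr pr_inj.injOn

theorem mem_pd {n : ℕ} (hn : n ≠ 0) (v : Pr ℚ) : v ∈ pd n ↔ pr v ∣ n := by
  unfold pd
  rw [Finset.mem_preimage, Nat.mem_primeFactors]
  exact ⟨fun h => h.2.1, fun h => ⟨pr_prime v, h, hn⟩⟩

theorem nn_pd (n : ℕ) : nn (pd n) = (rad n : ℝ) := by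
  unfold nn pd rad
  rw [Finset.prod_congr rfl fun v _ => Nv_pr v]
  push_cast
  refine Finset.prod_preimage pr n.primeFactors pr_inj.injOn (fun p : ℕ => (p : ℝ)) ?_
  intro p hp hnot
  exfalso
  obtain ⟨v, hv⟩ := exists_pr (Nat.prime_of_mem_primeFactors hp)
  exact hnot ⟨v, hv⟩

/-- the three members -/
def mb (a b : ℕ) (i : Fin 3) : ℕ := ![a, b, a + b] i

theorem mb_pos {a b : ℕ} (ha : 0 < a) (hb : 0 < b) (i : Fin 3) : 0 < mb a b i := by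
  fin_cases i
  · exact ha
  · exact hb
  · exact Nat.add_pos_left ha b

theorem co_cast (a b : ℕ) (i : Fin 3) : co (a : 𝓞 ℚ) (b : 𝓞 ℚ) i = ((mb a b i : ℕ) : 𝓞 ℚ) := by
  fin_cases i
  · rfl
  · rfl
  · show (a : 𝓞 ℚ) + (b : 𝓞 ℚ) = ((a + b : ℕ) : 𝓞 ℚ)
    push_cast
    rfl

theorem tri {a b : ℕ} (ha : 0 < a) (hb : 0 < b) (h : Nat.Coprime a b) :
    Tri (a : 𝓞 ℚ) (b : 𝓞 ℚ) := by
  refine ⟨Nat.cast_ne_zero.2 ha.ne', Nat.cast_ne_zero.2 hb.ne', ?_, ?_⟩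
  · rw [← Nat.cast_add]
    exact Nat.cast_ne_zero.2 (by omega)
  · have h1 : IsCoprime (a : ℤ) (b : ℤ) := Nat.isCoprime_iff_coprime.2 h
    have h2 := h1.map (Int.castRingHom (𝓞 ℚ))
    simpa using h2

/-- the point of a pair -/
noncomputable def phi (a b : ℕ) : ℚ := pt (a : 𝓞 ℚ) (b : 𝓞 ℚ)

theorem phi_eq (a b : ℕ) : phi a b = (a : ℚ) / (b : ℚ) := by
  unfold phi pt
  have : ∀ n : ℕ, (((n : ℕ) : 𝓞 ℚ) : ℚ) = (n : ℚ) := fun n => by
    show algebraMap (𝓞 ℚ) ℚ (n : 𝓞 ℚ) = _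
    rw [map_natCast]
  rw [this, this]

theorem phi_inj {a b c d : ℕ} (hb : 0 < b) (hd : 0 < d) (h : Nat.Coprime a b)
    (h' : Nat.Coprime c d) (he : phi a b = phi c d) : a = c ∧ b = d := by
  rw [phi_eq, phi_eq] at he
  have hb0 : (b : ℚ) ≠ 0 := Nat.cast_ne_zero.2 hb.ne'
  have hd0 : (d : ℚ) ≠ 0 := Nat.cast_ne_zero.2 hd.ne'
  rw [div_eq_div_iff hb0 hd0] at he
  have h1 : a * d = c * b := by exact_mod_cast he
  have h2 : b ∣ d := by
    have : b ∣ a * d := ⟨c, by rw [h1]; ring⟩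
    exact h.symm.dvd_of_dvd_mul_left this
  have h3 : d ∣ b := by
    have : d ∣ c * b := ⟨a, by rw [← h1]; ring⟩
    exact h'.symm.dvd_of_dvd_mul_left this
  have h4 := Nat.dvd_antisymm h2 h3
  subst h4
  exact ⟨Nat.eq_of_mul_eq_mul_right hb h1, rfl⟩

theorem mem_side {a b : ℕ} (ha : 0 < a) (hb : 0 < b) (h : Nat.Coprime a b) (v : Pr ℚ)
    (i : Fin 3) : v ∈ side i (phi a b) ↔ pr v ∣ mb a b i := by
  unfold phi
  rw [mem_side_pt (tri ha hb h), co_cast, dvd_iff]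

theorem sum_place (n : ℕ) : ∑ w : InfinitePlace ℚ, (w.mult : ℝ) *
    Real.log (w (((n : ℕ) : 𝓞 ℚ) : ℚ)) = Real.log n := by
  have h1 : ∀ w : InfinitePlace ℚ, (w.mult : ℝ) * Real.log (w (((n : ℕ) : 𝓞 ℚ) : ℚ)) =
      (w.mult : ℝ) * Real.log n := by
    intro w
    have h2 : (((n : ℕ) : 𝓞 ℚ) : ℚ) = (n : ℚ) := by
      show algebraMap (𝓞 ℚ) ℚ (n : 𝓞 ℚ) = _
      rw [map_natCast]
    rw [h2, ← InfinitePlace.norm_embedding_eq, map_natCast, Complex.norm_natCast]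
  rw [Finset.sum_congr rfl fun w _ => h1 w, ← Finset.sum_mul, ← Nat.cast_sum,
    InfinitePlace.sum_mult_eq, Module.finrank_self]
  norm_num

theorem fin_le {a b : ℕ} (ha : 0 < a) (hb : 0 < b) (h : Nat.Coprime a b) (i : Fin 3) :
    finO ∅ i (phi a b) ≤ Real.log (mb a b i) := by
  have h1 : co (a : 𝓞 ℚ) (b : 𝓞 ℚ) i = 1 * ((mb a b i : ℕ) : 𝓞 ℚ) := by
    rw [one_mul, co_cast]
  have h2 := finO_le (tri ha hb h) ∅ i h1 (Nat.cast_ne_zero.2 (mb_pos ha hb i).ne') (by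
    intro v hv
    exfalso
    exact v.isPrime.ne_top ((Ideal.eq_top_iff_one _).2 hv))
  rwa [sum_place] at h2

theorem hgt_ge {a b : ℕ} (ha : 0 < a) (hb : 0 < b) (h : Nat.Coprime a b) :
    Real.log ((a + b : ℕ) : ℝ) ≤ hgt (phi a b) := by
  unfold phi
  rw [(tri ha hb h).hgt, ← sum_place]
  refine Finset.sum_le_sum fun w _ => ?_
  refine mul_le_mul_of_nonneg_left ?_ (by positivity)
  have h1 : (((a : 𝓞 ℚ) + (b : 𝓞 ℚ) : 𝓞 ℚ) : ℚ) = (((a + b : ℕ) : 𝓞 ℚ) : ℚ) := by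
    rw [Nat.cast_add]
  rw [h1]
  refine Real.log_le_log ?_ ((le_max_right _ _).trans (le_max_right _ _))
  rw [InfinitePlace.pos_iff]
  exact coe_ne (Nat.cast_ne_zero.2 (by omega))

/-- the radical -/
theorem nn_sp {a b : ℕ} (ha : 0 < a) (hb : 0 < b) (h : Nat.Coprime a b) :
    nn (sp (phi a b)) = (rad (a * b * (a + b)) : ℝ) := by
  rw [← nn_pd]
  congr 1
  have hc : 0 < a + b := by omega
  ext v
  have hpt : Pt (phi a b) := (tri ha hb h).pt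
  rw [mem_pd (by positivity), mem_sp_iff hpt]
  have hp := pr_prime v
  rw [hp.dvd_mul, hp.dvd_mul]
  have h1 : ∀ i, v ∈ side i (phi a b) ↔ pr v ∣ mb a b i := mem_side ha hb h v
  simp only [h1, Fin.exists_fin_succ, mb]
  simp
  tauto

end Pool.Agent.T6.H44.MEM.Nt
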