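import Pool.Agent.T6.H44.MEM.Nt

/-!
Natural numbers a power of which lies in an admissible triple `(a, b, c)` with a small value of
`rad (abc) / z ^ ω(abc)`.
-/

set_option autoImplicit false

namespace Pool.Agent.T6.H44.MEM.Nt

open Finset NumberField IsDedekindDomain Pool.Agent.H691R3 Pool.Agent.TH876.Loc
open Pool.Agent.TH876.KR (log_Nv_pos' log_nn side rr rr_nonneg rr_sum' mem_sp_iff)
open Pool.Agent.TH402.AK (Tri pt coe_ne pt_add_one)
open Pool.Agent.H813R3.Abc (pr pr_prime pr_inj dvd_iff)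
open Pool.Agent.H785R2.ABC (rad)
open Pool.Agent.R479.HK (W W_pos W_mul W_inv PS PS_card key)

theorem W_pow (z : ℝ) (m : ℕ) {n : ℕ} (hn : 1 ≤ n) : W z (m ^ n) = W z m := by
  unfold W rad
  rw [Nat.primeFactors_pow m (by omega)]

theorem rad_pF {n : ℕ} : (rad n).primeFactors = n.primeFactors := by
  unfold rad
  exact Nat.primeFactors_prod fun p hp => Nat.prime_of_mem_primeFactors hp

theorem rad_rad (n : ℕ) : rad (rad n) = rad n := by
  have h : rad (rad n) = ∏ p ∈ (rad n).primeFactors, p := rfl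
  rw [h, rad_pF]
  rfl

theorem W_rad (z : ℝ) (n : ℕ) : W z (rad n) = W z n := by
  show (rad (rad n) : ℝ) / z ^ (rad n).primeFactors.card = (rad n : ℝ) / z ^ n.primeFactors.card
  rw [rad_rad, rad_pF]

theorem rad_pos (n : ℕ) : 0 < rad n :=
  Finset.prod_pos fun _ hp => (Nat.prime_of_mem_primeFactors hp).pos

theorem rad_dvd (n : ℕ) : rad n ∣ n := Nat.prod_primeFactors_dvd n

theorem prime_dvd_rad {n p : ℕ} (hn : n ≠ 0) (hp : p.Prime) (h : p ∣ n) : p ∣ rad n :=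
  Finset.dvd_prod_of_mem _ (Nat.mem_primeFactors.2 ⟨hp, h, hn⟩)

/-- few numbers have a small weight -/
theorem few_W {N : ℕ} {z Y : ℝ} (hz : 0 < z) (hY : 0 ≤ Y) (G : Finset ℕ)
    (hG : ∀ n ∈ G, 1 ≤ n ∧ n ≤ N ∧ W z n ≤ Y) :
    (G.card : ℝ) ≤ Y * ∑ n ∈ Icc 1 N, z ^ n.primeFactors.card / (rad n : ℝ) := by
  have h1 : (G.card : ℝ) ≤ ∑ n ∈ G, Y * (W z n)⁻¹ := by
    rw [Finset.card_eq_sum_ones, Nat.cast_sum]
    refine Finset.sum_le_sum fun n hn => ?_
    have h0 := W_pos hz n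
    rw [← div_eq_mul_inv, Nat.cast_one, one_le_div h0]
    exact (hG n hn).2.2
  refine h1.trans ?_
  rw [Finset.mul_sum]
  have h2 : ∑ n ∈ G, Y * (W z n)⁻¹ ≤ ∑ n ∈ Icc 1 N, Y * (W z n)⁻¹ := by
    refine Finset.sum_le_sum_of_subset_of_nonneg ?_ fun n _ _ => ?_
    · intro n hn
      exact Finset.mem_Icc.2 ⟨(hG n hn).1, (hG n hn).2.1⟩
    · have h0 := W_pos hz n
      positivity
  refine h2.trans (le_of_eq (Finset.sum_congr rfl fun n _ => ?_))
  rw [W_inv]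

/-- the two other members -/
def ot (a b : ℕ) (i : Fin 3) : ℕ × ℕ := ![(b, a + b), (a, a + b), (a, b)] i

theorem ot_mul (a b : ℕ) (i : Fin 3) :
    (ot a b i).1 * (ot a b i).2 * mb a b i = a * b * (a + b) := by
  fin_cases i
  · show b * (a + b) * a = _
    ring
  · show a * (a + b) * b = _
    ring
  · rfl

theorem ot_pos {a b : ℕ} (ha : 0 < a) (hb : 0 < b) (i : Fin 3) :
    0 < (ot a b i).1 ∧ 0 < (ot a b i).2 := by
  fin_cases i
  · exact ⟨hb, Nat.add_pos_left ha b⟩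
  · exact ⟨ha, Nat.add_pos_left ha b⟩
  · exact ⟨ha, hb⟩

theorem ot_le (a b : ℕ) (i : Fin 3) : (ot a b i).1 ≤ a + b ∧ (ot a b i).2 ≤ a + b := by
  fin_cases i
  · exact ⟨Nat.le_add_left b a, le_rfl⟩
  · exact ⟨Nat.le_add_right a b, le_rfl⟩
  · exact ⟨Nat.le_add_right a b, Nat.le_add_left b a⟩

theorem ot_cop {a b : ℕ} (h : Nat.Coprime a b) (i : Fin 3) :
    Nat.Coprime (ot a b i).1 (ot a b i).2 ∧
      Nat.Coprime ((ot a b i).1 * (ot a b i).2) (mb a b i) := by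
  have h1 : Nat.Coprime b (a + b) := by simpa using h.symm
  have h2 : Nat.Coprime a (a + b) := by simpa using h
  fin_cases i
  · exact ⟨h1, Nat.Coprime.mul_left h.symm h2.symm⟩
  · exact ⟨h2, Nat.Coprime.mul_left h h1.symm⟩
  · exact ⟨h, Nat.Coprime.mul_left h2 h1⟩

theorem ot_det {a b c d : ℕ} {i : Fin 3} (h : ot a b i = ot c d i) : mb a b i = mb c d i := by
  fin_cases i
  · have h1 : b = d := congrArg Prod.fst h
    have h2 : a + b = c + d := congrArg Prod.snd h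
    show a = c
    omega
  · have h1 : a = c := congrArg Prod.fst h
    have h2 : a + b = c + d := congrArg Prod.snd h
    show b = d
    omega
  · have h1 : a = c := congrArg Prod.fst h
    have h2 : b = d := congrArg Prod.snd h
    show a + b = c + d
    rw [h1, h2]

theorem mb_dvd {a b : ℕ} {i j : Fin 3} (hij : i ≠ j) : mb a b j ∣ (ot a b i).1 * (ot a b i).2 := by
  fin_cases i <;> fin_cases j <;> simp [mb, ot] at hij ⊢

theorem card_three {α β : Type} [DecidableEq β] (G : Finset α) (F : Finset β) (f : α → Fin 3 × β)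
    (hf : ∀ m ∈ G, (f m).2 ∈ F) (hinj : ∀ m ∈ G, ∀ n ∈ G, f m = f n → m = n) :
    G.card ≤ 3 * F.card := by
  have h1 : G.card ≤ ((Finset.univ : Finset (Fin 3)) ×ˢ F).card := by
    refine Finset.card_le_card_of_injOn f ?_ ?_
    · intro m hm
      exact Finset.mem_product.2 ⟨Finset.mem_univ _, hf m hm⟩
    · intro m hm n hn h
      exact hinj m hm n hn h
  rwa [Finset.card_product, Finset.card_univ, Fintype.card_fin] at h1

/-- **the numbers a power of which lies in a triple with a small weight** -/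
theorem few_exc (n : ℕ) (hn : 1 ≤ n) (A A₀ ε : ℝ) (hε : 0 < ε) (hε1 : ε ≤ 1) :
    ∃ C : ℝ, 0 < C ∧ ∀ X : ℝ, 1 ≤ X → ∀ z : ℝ, 0 < z → z ≤ A₀ * (1 + Real.log X) →
    ∀ G : Finset ℕ, (∀ m ∈ G, 1 ≤ m ∧ (m : ℝ) ≤ X ∧ ∃ a b : ℕ, 0 < a ∧ 0 < b ∧
      Nat.Coprime a b ∧ (∃ i : Fin 3, mb a b i = m ^ n) ∧ (rad (a * b * (a + b)) : ℝ) ≤ X ^ A ∧
      W z (a * b * (a + b)) ≤ X ^ (2 - ε)) →
    (G.card : ℝ) ≤ C * X ^ (1 - ε / 4) := by
  classical
  obtain ⟨B, hB⟩ : ∃ B : ℝ, B = max (max A n) 1 := ⟨_, rfl⟩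
  have hB1 : 1 ≤ B := by rw [hB]; exact le_max_right _ _
  have hBA : A ≤ B := by rw [hB]; exact (le_max_left _ _).trans (le_max_left _ _)
  have hBn : (n : ℝ) ≤ B := by rw [hB]; exact (le_max_right _ _).trans (le_max_left _ _)
  have hB0 : 0 < B := by linarith
  obtain ⟨δ, hδ⟩ : ∃ δ : ℝ, δ = ε / (16 * B) := ⟨_, rfl⟩
  have hδ0 : 0 < δ := by rw [hδ]; positivity
  have hδB : B * δ = ε / 16 := by rw [hδ]; field_simp
  obtain ⟨D, hD, hkey⟩ := key (δ := δ) (A := A₀) hδ0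
  obtain ⟨Df, hDf, hfam⟩ := family_count ℚ δ hδ0
  refine ⟨D * 2 ^ δ + 3 * (D * 2 ^ δ) ^ 2 + 3 * (Df * (D * 2 ^ δ)), by positivity,
    fun X hX z hz hzX G hG => ?_⟩
  have hX0 : 0 < X := by linarith
  have hlX : 0 ≤ Real.log X := Real.log_nonneg hX
  obtain ⟨Y, hY⟩ : ∃ Y : ℝ, Y = X ^ (1 - ε / 2) := ⟨_, rfl⟩
  have hY0 : 0 < Y := by rw [hY]; positivity
  have hYY : Y * Y = X ^ (2 - ε) := by
    rw [hY, ← Real.rpow_add hX0]
    congr 1
    ring
  -- the weighted sums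
  have hsum : ∀ N : ℕ, X ≤ N → ∑ n ∈ Icc 1 N, z ^ n.primeFactors.card / (rad n : ℝ) ≤
      D * (N : ℝ) ^ δ := by
    intro N hN
    have hN1 : 1 ≤ N := by exact_mod_cast hX.trans hN
    refine hkey N hN1 z hz.le (hzX.trans ?_)
    have h1 : Real.log X ≤ Real.log N := Real.log_le_log hX0 hN
    have h2 : 0 ≤ A₀ := by
      by_contra hcon
      rw [not_le] at hcon
      nlinarith
    nlinarith
  obtain ⟨G1, hG1⟩ : ∃ G1, G1 = G.filter fun m => W z m ≤ Y := ⟨_, rfl⟩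
  obtain ⟨G2, hG2⟩ : ∃ G2, G2 = G.filter fun m => ¬ W z m ≤ Y := ⟨_, rfl⟩
  have hcard : (G.card : ℝ) = G1.card + G2.card := by
    have := Finset.card_filter_add_card_filter_not (s := G) (fun m => W z m ≤ Y)
    rw [hG1, hG2]
    exact_mod_cast this.symm
  -- powers
  obtain ⟨R, hR⟩ : ∃ R : ℕ, R = ⌈X ^ B⌉₊ := ⟨_, rfl⟩
  have hXB1 : 1 ≤ X ^ B := Real.one_le_rpow hX (by linarith)
  have hXXB : X ≤ X ^ B := by
    calc X = X ^ (1 : ℝ) := (Real.rpow_one X).symm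
      _ ≤ X ^ B := Real.rpow_le_rpow_of_exponent_le hX hB1
  have hRX : X ^ B ≤ R := by rw [hR]; exact Nat.le_ceil _
  have hR2 : (R : ℝ) ≤ 2 * X ^ B := by
    have := (Nat.ceil_lt_add_one (by positivity : 0 ≤ X ^ B)).le
    rw [hR]
    linarith
  have hRδ : (R : ℝ) ^ δ ≤ 2 ^ δ * X ^ (ε / 16) := by
    calc (R : ℝ) ^ δ ≤ (2 * X ^ B) ^ δ := Real.rpow_le_rpow (Nat.cast_nonneg _) hR2 hδ0.le
      _ = 2 ^ δ * X ^ (ε / 16) := by
          rw [Real.mul_rpow (by norm_num) (by positivity), ← Real.rpow_mul hX0.le, hδB]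
  obtain ⟨N, hN⟩ : ∃ N : ℕ, N = ⌈X ^ (2 * B)⌉₊ := ⟨_, rfl⟩
  have hX2B1 : 1 ≤ X ^ (2 * B) := Real.one_le_rpow hX (by linarith)
  have hXX2B : X ≤ X ^ (2 * B) := by
    calc X = X ^ (1 : ℝ) := (Real.rpow_one X).symm
      _ ≤ X ^ (2 * B) := Real.rpow_le_rpow_of_exponent_le hX (by linarith)
  have hNX : X ^ (2 * B) ≤ N := by rw [hN]; exact Nat.le_ceil _
  have hN2 : (N : ℝ) ≤ 2 * X ^ (2 * B) := by
    have := (Nat.ceil_lt_add_one (by positivity : 0 ≤ X ^ (2 * B))).le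
    rw [hN]
    linarith
  have hNδ : (N : ℝ) ^ δ ≤ 2 ^ δ * X ^ (ε / 8) := by
    calc (N : ℝ) ^ δ ≤ (2 * X ^ (2 * B)) ^ δ := Real.rpow_le_rpow (Nat.cast_nonneg _) hN2 hδ0.le
      _ = 2 ^ δ * X ^ (ε / 8) := by
          rw [Real.mul_rpow (by norm_num) (by positivity), ← Real.rpow_mul hX0.le]
          congr 2
          linear_combination 2 * hδB
  have hXe : ∀ t : ℝ, t ≤ ε / 4 → X ^ t * Y ≤ X ^ (1 - ε / 4) := by
    intro t ht
    rw [hY, ← Real.rpow_add hX0]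
    exact Real.rpow_le_rpow_of_exponent_le hX (by linarith)
  -- numbers of small weight
  have d1 : (G1.card : ℝ) ≤ D * 2 ^ δ * X ^ (1 - ε / 4) := by
    have h2 := few_W (N := R) hz hY0.le G1 (fun m hm => by
      rw [hG1, mem_filter] at hm
      obtain ⟨a1, a2, _⟩ := hG m hm.1
      refine ⟨a1, ?_, hm.2⟩
      exact_mod_cast a2.trans (hXXB.trans hRX))
    calc (G1.card : ℝ) ≤ Y * ∑ n ∈ Icc 1 R, z ^ n.primeFactors.card / (rad n : ℝ) := h2
      _ ≤ Y * (D * (2 ^ δ * X ^ (ε / 16))) := by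
          refine mul_le_mul_of_nonneg_left ((hsum R (hXXB.trans hRX)).trans ?_) hY0.le
          exact mul_le_mul_of_nonneg_left hRδ hD.le
      _ = D * 2 ^ δ * (X ^ (ε / 16) * Y) := by ring
      _ ≤ D * 2 ^ δ * X ^ (1 - ε / 4) :=
          mul_le_mul_of_nonneg_left (hXe _ (by linarith)) (by positivity)
  -- the triples
  have hex : ∀ m : ℕ, ∃ (a b : ℕ) (i : Fin 3), m ∈ G → 0 < a ∧ 0 < b ∧
      Nat.Coprime a b ∧ mb a b i = m ^ n ∧ (rad (a * b * (a + b)) : ℝ) ≤ X ^ A ∧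
      W z (a * b * (a + b)) ≤ X ^ (2 - ε) := by
    intro m
    by_cases hm : m ∈ G
    · obtain ⟨a1, a2, a, b, b1, b2, b3, ⟨i, b4⟩, b5, b6⟩ := hG m hm
      exact ⟨a, b, i, fun _ => ⟨b1, b2, b3, b4, b5, b6⟩⟩
    · exact ⟨0, 0, 0, fun h => absurd h hm⟩
  choose fa fb fi hf using hex
  have hG2' : ∀ m ∈ G2, m ∈ G ∧ W z ((ot (fa m) (fb m) (fi m)).1 * (ot (fa m) (fb m) (fi m)).2) ≤ Y ∧
      rad ((ot (fa m) (fb m) (fi m)).1 * (ot (fa m) (fb m) (fi m)).2) ≤
        rad (fa m * fb m * (fa m + fb m)) := by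
    intro m hm
    rw [hG2, mem_filter, not_le] at hm
    obtain ⟨hmG, hmY⟩ := hm
    obtain ⟨b1, b2, b3, b4, b5, b6⟩ := hf m hmG
    have hc := (ot_cop b3 (fi m)).2
    have h1 := W_mul (z := z) hc
    rw [ot_mul] at h1
    refine ⟨hmG, ?_, ?_⟩
    · by_contra hcon
      rw [not_le] at hcon
      rw [h1, b4, W_pow z m hn, ← hYY] at b6
      have h2 := mul_lt_mul'' hcon hmY hY0.le hY0.le
      linarith
    · refine Nat.le_of_dvd (rad_pos _) ?_
      refine Finset.prod_dvd_prod_of_subset _ _ _ ?_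
      refine Nat.primeFactors_mono ?_ (by positivity)
      exact ⟨_, (ot_mul (fa m) (fb m) (fi m)).symm⟩
  -- small heights
  obtain ⟨G3, hG3⟩ : ∃ G3, G3 = G2.filter fun m => fa m + fb m ≤ N := ⟨_, rfl⟩
  obtain ⟨G4, hG4⟩ : ∃ G4, G4 = G2.filter fun m => ¬ fa m + fb m ≤ N := ⟨_, rfl⟩
  have hcard2 : (G2.card : ℝ) = G3.card + G4.card := by
    have := Finset.card_filter_add_card_filter_not (s := G2) (fun m => fa m + fb m ≤ N)
    rw [hG3, hG4]
    exact_mod_cast this.symm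
  have hpow : ∀ m k : ℕ, m ^ n = k ^ n → m = k := fun m k h =>
    Nat.pow_left_injective (by omega) h
  have d3 : (G3.card : ℝ) ≤ 3 * (D * 2 ^ δ) ^ 2 * X ^ (1 - ε / 4) := by
    have h1 : G3.card ≤ 3 * (PS N z Y).card := by
      refine card_three G3 (PS N z Y) (fun m => (fi m, ot (fa m) (fb m) (fi m))) ?_ ?_
      · intro m hm
        rw [hG3, mem_filter] at hm
        obtain ⟨hm2, hmN⟩ := hm
        obtain ⟨hmG, hmY, _⟩ := hG2' m hm2
        obtain ⟨b1, b2, b3, b4, b5, b6⟩ := hf m hmG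
        have hp := ot_pos b1 b2 (fi m)
        have hl := ot_le (fa m) (fb m) (fi m)
        unfold PS
        rw [Finset.mem_filter, Finset.mem_product, Finset.mem_Icc, Finset.mem_Icc]
        refine ⟨⟨⟨hp.1, hl.1.trans hmN⟩, hp.2, hl.2.trans hmN⟩, ?_⟩
        rw [← W_mul (ot_cop b3 (fi m)).1]
        exact hmY
      · intro m hm k hk hmk
        rw [hG3, mem_filter] at hm hk
        obtain ⟨hmG, _⟩ := hG2' m hm.1
        obtain ⟨hkG, _⟩ := hG2' k hk.1
        have e1 : fi m = fi k := congrArg Prod.fst hmk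
        have e2 : ot (fa m) (fb m) (fi m) = ot (fa k) (fb k) (fi k) := congrArg Prod.snd hmk
        have h3 := (hf m hmG).2.2.2.1
        have h4 := (hf k hkG).2.2.2.1
        rw [← e1] at e2 h4
        refine hpow m k ?_
        rw [← h3, ← h4]
        exact ot_det e2
    have h2 : ((PS N z Y).card : ℝ) ≤ Y * (D * (2 ^ δ * X ^ (ε / 8))) ^ 2 := by
      refine (PS_card hz hY0.le).trans (mul_le_mul_of_nonneg_left ?_ hY0.le)
      refine pow_le_pow_left₀ (Finset.sum_nonneg fun n _ => by positivity) ?_ 2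
      exact (hsum N (hXX2B.trans hNX)).trans (mul_le_mul_of_nonneg_left hNδ hD.le)
    have h3 : (G3.card : ℝ) ≤ 3 * ((PS N z Y).card : ℝ) := by exact_mod_cast h1
    have h4 : X ^ (ε / 8) * X ^ (ε / 8) = X ^ (ε / 4) := by
      rw [← Real.rpow_add hX0]
      congr 1
      ring
    calc (G3.card : ℝ) ≤ 3 * (Y * (D * (2 ^ δ * X ^ (ε / 8))) ^ 2) := by linarith
      _ = 3 * (D * 2 ^ δ) ^ 2 * (X ^ (ε / 4) * Y) := by rw [← h4]; ring
      _ ≤ _ := mul_le_mul_of_nonneg_left (hXe _ le_rfl) (by positivity)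
  -- large heights
  have d4 : (G4.card : ℝ) ≤ 3 * (Df * (D * 2 ^ δ)) * X ^ (1 - ε / 4) := by
    obtain ⟨Q, hQ⟩ : ∃ Q, Q = (Icc 1 R).filter fun r => W z r ≤ Y := ⟨_, rfl⟩
    obtain ⟨V, hV⟩ : ∃ V, V = (Q.filter fun r => (rad r : ℝ) ≤ X ^ B).image pd := ⟨_, rfl⟩
    have hQc : (Q.card : ℝ) ≤ Y * (D * (2 ^ δ * X ^ (ε / 16))) := by
      refine (few_W (N := R) hz hY0.le Q (fun r hr => by
        rw [hQ, mem_filter, mem_Icc] at hr
        exact ⟨hr.1.1, hr.1.2, hr.2⟩)).trans ?_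
      refine mul_le_mul_of_nonneg_left ((hsum R (hXXB.trans hRX)).trans ?_) hY0.le
      exact mul_le_mul_of_nonneg_left hRδ hD.le
    have hVc : (V.card : ℝ) ≤ Y * (D * (2 ^ δ * X ^ (ε / 16))) := by
      refine le_trans ?_ hQc
      rw [hV]
      exact_mod_cast Finset.card_image_le.trans (Finset.card_filter_le _ _)
    obtain ⟨F, hF⟩ : ∃ F, F = G4.image fun m => phi (fa m) (fb m) := ⟨_, rfl⟩
    have h1 : G4.card ≤ 3 * F.card := by
      refine card_three G4 F (fun m => (fi m, phi (fa m) (fb m))) ?_ ?_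
      · intro m hm
        rw [hF]
        exact Finset.mem_image_of_mem (fun m => phi (fa m) (fb m)) hm
      · intro m hm k hk hmk
        rw [hG4, mem_filter] at hm hk
        obtain ⟨hmG, _⟩ := hG2' m hm.1
        obtain ⟨hkG, _⟩ := hG2' k hk.1
        have e1 : fi m = fi k := congrArg Prod.fst hmk
        have e2 : phi (fa m) (fb m) = phi (fa k) (fb k) := congrArg Prod.snd hmk
        obtain ⟨b1, b2, b3, b4, _⟩ := hf m hmG
        obtain ⟨c1, c2, c3, c4, _⟩ := hf k hkG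
        obtain ⟨e3, e4⟩ := phi_inj b2 c2 b3 c3 e2
        refine hpow m k ?_
        rw [← b4, ← c4, e1, e3, e4]
    have h2 := hfam (X ^ B) hXB1 V (by
      intro S hS
      rw [hV, mem_image] at hS
      obtain ⟨r, hr, rfl⟩ := hS
      rw [nn_pd]
      exact (Finset.mem_filter.1 hr).2) F (by
      intro x hx
      rw [hF, mem_image] at hx
      obtain ⟨m, hm, rfl⟩ := hx
      rw [hG4, mem_filter, not_le] at hm
      obtain ⟨hm2, hmN⟩ := hm
      obtain ⟨hmG, hmY, hmr⟩ := hG2' m hm2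
      obtain ⟨b1, b2, b3, b4, b5, b6⟩ := hf m hmG
      obtain ⟨a1, a2, _⟩ := hG m hmG
      have hp := ot_pos b1 b2 (fi m)
      obtain ⟨q, hq⟩ : ∃ q, q = (ot (fa m) (fb m) (fi m)).1 * (ot (fa m) (fb m) (fi m)).2 :=
        ⟨_, rfl⟩
      rw [← hq] at hmY hmr
      have hq0 : q ≠ 0 := by rw [hq]; exact (Nat.mul_pos hp.1 hp.2).ne'
      have hrq : (rad q : ℝ) ≤ X ^ B := by
        have h3 : (rad q : ℝ) ≤ (rad (fa m * fb m * (fa m + fb m)) : ℝ) := by exact_mod_cast hmr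
        exact (h3.trans b5).trans (Real.rpow_le_rpow_of_exponent_le hX hBA)
      have hsub : ∀ j, fi m ≠ j → side j (phi (fa m) (fb m)) ⊆ pd (rad q) := by
        intro j hj v hv
        rw [mem_side b1 b2 b3] at hv
        rw [mem_pd (rad_pos q).ne']
        refine prime_dvd_rad hq0 (pr_prime v) (hv.trans ?_)
        rw [hq]
        exact mb_dvd hj
      obtain ⟨i, j, hij⟩ : ∃ i j : Fin 3, fi m ≠ i ∧ i ≠ j ∧ fi m ≠ j := by
        obtain ⟨A', E', h3, h4, h5⟩ := Pool.Agent.T6.H44.DIV.others (fi m)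
        exact ⟨A', E', h3.symm, h5, h4⟩
      refine ⟨(tri b1 b2 b3).pt, ?_, fi m, i, j, hij.1, hij.2.1, hij.2.2, ?_, pd (rad q), ?_,
        hsub i hij.1, hsub j hij.2.2⟩
      · refine le_trans ?_ (hgt_ge b1 b2 b3)
        have h3 : (N : ℝ) ≤ ((fa m + fb m : ℕ) : ℝ) := by exact_mod_cast hmN.le
        have h4 := Real.log_le_log (by positivity) (hNX.trans h3)
        rw [Real.log_rpow hX0] at h4
        rw [Real.log_rpow hX0]
        linarith
      · refine (fin_le b1 b2 b3 (fi m)).trans ?_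
        rw [b4]
        push_cast
        rw [Real.log_pow, Real.log_rpow hX0]
        have h3 : Real.log m ≤ Real.log X :=
          Real.log_le_log (by exact_mod_cast a1) a2
        have h4 : 0 ≤ Real.log (m : ℝ) := Real.log_nonneg (by exact_mod_cast a1)
        exact mul_le_mul hBn h3 h4 hB0.le
      · rw [hV]
        refine Finset.mem_image_of_mem pd (Finset.mem_filter.2 ⟨?_, ?_⟩)
        · rw [hQ]
          refine Finset.mem_filter.2 ⟨Finset.mem_Icc.2 ⟨rad_pos q, ?_⟩, ?_⟩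
          · exact_mod_cast hrq.trans hRX
          · rw [W_rad]
            exact hmY
        · rw [rad_rad]
          exact hrq)
    have h3 : (X ^ B) ^ δ = X ^ (ε / 16) := by rw [← Real.rpow_mul hX0.le, hδB]
    rw [h3] at h2
    have h4 : (G4.card : ℝ) ≤ 3 * (F.card : ℝ) := by exact_mod_cast h1
    have h5 : X ^ (ε / 16) * X ^ (ε / 16) = X ^ (ε / 8) := by
      rw [← Real.rpow_add hX0]
      congr 1
      ring
    calc (G4.card : ℝ) ≤ 3 * (Df * X ^ (ε / 16) * V.card) := by linarith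
      _ ≤ 3 * (Df * X ^ (ε / 16) * (Y * (D * (2 ^ δ * X ^ (ε / 16))))) := by
          refine mul_le_mul_of_nonneg_left ?_ (by norm_num)
          exact mul_le_mul_of_nonneg_left hVc (by positivity)
      _ = 3 * (Df * (D * 2 ^ δ)) * (X ^ (ε / 8) * Y) := by rw [← h5]; ring
      _ ≤ _ := mul_le_mul_of_nonneg_left (hXe _ (by linarith)) (by positivity)
  rw [hcard, hcard2]
  linarith [add_mul (D * 2 ^ δ) (3 * (D * 2 ^ δ) ^ 2) (X ^ (1 - ε / 4)),
    add_mul (D * 2 ^ δ + 3 * (D * 2 ^ δ) ^ 2) (3 * (Df * (D * 2 ^ δ))) (X ^ (1 - ε / 4))]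

end Pool.Agent.T6.H44.MEM.Nt
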