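import Pool.Agent.T6.H44.MEM.Nt2

/-!
Admissible triples of natural numbers with a member composed of given primes, and many triples with
a given member.
-/

set_option autoImplicit false

namespace Pool.Agent.T6.H44.MEM.Nt

open Finset NumberField IsDedekindDomain Pool.Agent.H691R3 Pool.Agent.TH876.Loc
open Pool.Agent.TH876.KR (log_Nv_pos' log_nn side rr rr_nonneg rr_sum' mem_sp_iff)
open Pool.Agent.TH402.AK (Tri pt coe_ne pt_add_one)
open Pool.Agent.H813R3.Abc (pr pr_prime pr_inj dvd_iff)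
open Pool.Agent.H785R2.ABC (rad)

/-- pairs with a member composed of given primes -/
theorem given_primes (m : ℕ) (hm : m ≠ 0) (ε : ℝ) (hε : 0 < ε) :
    ∃ C : ℝ, 0 < C ∧ ∀ X : ℝ, 1 ≤ X → ∀ F : Finset (ℕ × ℕ),
    (∀ p ∈ F, 0 < p.1 ∧ 0 < p.2 ∧ Nat.Coprime p.1 p.2 ∧
      (rad (p.1 * p.2 * (p.1 + p.2)) : ℝ) ≤ X ∧
      ∃ i : Fin 3, ∀ q : ℕ, q.Prime → q ∣ mb p.1 p.2 i → q ∣ m) →
    (F.card : ℝ) ≤ C * X ^ (1 / 2 + ε) := by
  classical
  obtain ⟨D, hD, hmain⟩ := unit_member ℚ (pd m) ε hε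
  refine ⟨D, hD, fun X hX F hF => ?_⟩
  have h1 : F.card = (F.image fun p => phi p.1 p.2).card := by
    rw [Finset.card_image_of_injOn]
    intro p hp q hq h
    obtain ⟨a1, a2, a3, _⟩ := hF p hp
    obtain ⟨b1, b2, b3, _⟩ := hF q hq
    obtain ⟨h2, h3⟩ := phi_inj a2 b2 a3 b3 h
    exact Prod.ext h2 h3
  rw [h1]
  refine hmain X hX _ fun x hx => ?_
  rw [mem_image] at hx
  obtain ⟨p, hp, rfl⟩ := hx
  obtain ⟨a1, a2, a3, a4, i, a5⟩ := hF p hp
  refine ⟨(tri a1 a2 a3).pt, ⟨i, ?_⟩, ?_⟩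
  · intro v hv
    rw [mem_side a1 a2 a3] at hv
    rw [mem_pd hm]
    exact a5 _ (pr_prime v) hv
  · rw [nn_sp a1 a2 a3]
    exact a4

theorem rad_le_self {n : ℕ} (hn : 0 < n) : rad n ≤ n := Nat.le_of_dvd hn (rad_dvd n)

/-- many triples with a given member -/
theorem many (m : ℕ) (hm : 0 < m) : ∃ c₁ X₀ : ℝ, 0 < c₁ ∧ ∀ X : ℝ, X₀ ≤ X →
    ∃ F : Finset (ℕ × ℕ), (∀ p ∈ F, p.1 = m ∧ 0 < p.2 ∧ Nat.Coprime p.1 p.2 ∧
      (rad (p.1 * p.2 * (p.1 + p.2)) : ℝ) ≤ X) ∧ c₁ * X ^ (1 / 2 : ℝ) ≤ (F.card : ℝ) := by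
  classical
  have hm0 : (0 : ℝ) < m := by exact_mod_cast hm
  obtain ⟨M, hM⟩ : ∃ M : ℝ, M = (m : ℝ) ^ 3 := ⟨_, rfl⟩
  have hM0 : 0 < M := by rw [hM]; positivity
  refine ⟨1 / (2 * Real.sqrt M), 16 * M, by positivity, fun X hX => ?_⟩
  have hX0 : 0 < X := by linarith
  obtain ⟨y, hy⟩ : ∃ y : ℝ, y = Real.sqrt (X / M) := ⟨_, rfl⟩
  have hy2 : M * y ^ 2 = X := by
    rw [hy, Real.sq_sqrt (by positivity)]
    field_simp
  have hy4 : 4 ≤ y := by
    rw [hy]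
    refine Real.le_sqrt_of_sq_le ?_
    rw [le_div_iff₀ hM0]
    linarith
  obtain ⟨T, hT⟩ : ∃ T : ℕ, T = ⌊y⌋₊ - 1 := ⟨_, rfl⟩
  have hfl : (⌊y⌋₊ : ℝ) ≤ y := Nat.floor_le (by linarith)
  have hfl2 : y < ⌊y⌋₊ + 1 := Nat.lt_floor_add_one y
  have hfl4 : 4 ≤ ⌊y⌋₊ := Nat.le_floor (by exact_mod_cast hy4)
  refine ⟨(Finset.range T).image fun t => (m, 1 + m * t), ?_, ?_⟩
  · intro p hp
    rw [mem_image] at hp
    obtain ⟨t, ht, rfl⟩ := hp
    rw [Finset.mem_range] at ht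
    have hcop : Nat.Coprime m (1 + m * t) := by
      rw [Nat.coprime_add_mul_left_right]
      exact Nat.coprime_one_right m
    refine ⟨rfl, by positivity, hcop, ?_⟩
    have h1 : rad (m * (1 + m * t) * (m + (1 + m * t))) ≤ m * (1 + m * t) * (m + (1 + m * t)) :=
      rad_le_self (by positivity)
    have h2 : (rad (m * (1 + m * t) * (m + (1 + m * t))) : ℝ) ≤
        (m : ℝ) * (1 + m * t) * (m + (1 + m * t)) := by exact_mod_cast h1
    refine h2.trans ?_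
    have h3 : ((t : ℝ) + 2) ≤ y := by
      have : t + 2 ≤ ⌊y⌋₊ := by omega
      have h4 : ((t + 2 : ℕ) : ℝ) ≤ (⌊y⌋₊ : ℝ) := by exact_mod_cast this
      push_cast at h4
      linarith
    have hm1 : (1 : ℝ) ≤ m := by exact_mod_cast hm
    have ht0 : (0 : ℝ) ≤ t := Nat.cast_nonneg t
    have h5 : 1 + (m : ℝ) * t ≤ m * y := by nlinarith
    have h6 : (m : ℝ) + (1 + m * t) ≤ m * y := by nlinarith
    calc (m : ℝ) * (1 + m * t) * (m + (1 + m * t)) ≤ m * (m * y) * (m * y) := by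
          refine mul_le_mul (mul_le_mul_of_nonneg_left h5 hm0.le) h6 (by positivity) (by positivity)
      _ = M * y ^ 2 := by rw [hM]; ring
      _ = X := hy2
  · rw [Finset.card_image_of_injective, Finset.card_range]
    · have h1 : (y - 2) ≤ (T : ℝ) := by
        rw [hT, Nat.cast_sub (by omega)]
        push_cast
        linarith
      have h2 : y = X ^ (1 / 2 : ℝ) / Real.sqrt M := by
        rw [hy, Real.sqrt_div' _ hM0.le, Real.sqrt_eq_rpow X]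
      have h3 : 1 / (2 * Real.sqrt M) * X ^ (1 / 2 : ℝ) = y / 2 := by
        rw [h2]
        field_simp
      rw [h3]
      linarith
    · intro s t hst
      have h1 : 1 + m * s = 1 + m * t := congrArg Prod.snd hst
      exact Nat.eq_of_mul_eq_mul_left hm (by omega)

end Pool.Agent.T6.H44.MEM.Nt
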