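import Pool.Agent.T6.H44.DIV.Gen
import Pool.Agent.T6.H44.DIV.Prime

/-!
Points of `a + b + c = 0` over a number field, of all heights, one side of which has a bounded norm:
the count by the radical of the two other sides.
-/

set_option autoImplicit false

namespace Pool.Agent.T6.H44.MEM

open Finset NumberField IsDedekindDomain Pool.Agent.H691R3 Pool.Agent.TH876.Loc
open Pool.Agent.TH876.KR (InP aw log_Nv_pos' log_nn side mem_side df_eq_zero Light Sc rho rho_gt
  scales all_heights rr_sum' side_sub rr rr_nonneg side_uniq mem_sp_iff side_sum df_int side_disj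
  gd_eq)
open Pool.Agent.Y728 Pool.Agent.T6.H44.DIV

variable {K : Type} [Field K] [NumberField K]

/-- the logarithm of the norm of a side -/
noncomputable def fin (i : Fin 3) (x : K) : ℝ := ∑ v ∈ side i x, df (Sum.inr v : Pl K) i x

theorem log_le_df {x : K} (hx : Pt x) {i : Fin 3} {v : Pr K} (h : v ∈ side i x) :
    Real.log (Nv v) ≤ df (Sum.inr v : Pl K) i x := by
  obtain ⟨m, hm⟩ := df_int hx v i
  have h1 := (mem_side hx).1 h
  have h2 := log_Nv_pos' v
  rw [hm] at h1 ⊢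
  have h3 : m ≠ 0 := by
    rintro rfl
    simp at h1
  have h4 : (1 : ℝ) ≤ m := by exact_mod_cast Nat.one_le_iff_ne_zero.2 h3
  nlinarith

theorem rr_le_fin {x : K} (hx : Pt x) (i : Fin 3) : rr i x ≤ fin i x :=
  Finset.sum_le_sum fun _ hv => log_le_df hx hv

theorem nn_two {x : K} [DecidableEq (Pr K)] {i j : Fin 3} (hij : i ≠ j) :
    nn (side i x ∪ side j x) = Real.exp (rr i x + rr j x) := by
  have h1 : Real.log (nn (side i x ∪ side j x)) = rr i x + rr j x := by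
    rw [log_nn, Finset.sum_union (side_disj hij)]
    rfl
  rw [← h1, Real.exp_log (nn_pos _)]

theorem fin_cases3 {A B E : Fin 3} (hAB : A ≠ B) (hBE : B ≠ E) (hAE : A ≠ E) (i : Fin 3) :
    i = A ∨ i = B ∨ i = E := by
  fin_cases A <;> fin_cases B <;> fin_cases E <;> fin_cases i <;> simp at hAB hBE hAE ⊢

open Classical in
/-- the logarithm of the norm of the part of a side which is prime to `S` -/
noncomputable def finO (S : Finset (Pr K)) (i : Fin 3) (x : K) : ℝ :=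
  ∑ v ∈ (side i x).filter (fun v => v ∉ S), df (Sum.inr v : Pl K) i x

theorem rr_le_finO {x : K} (hx : Pt x) (S : Finset (Pr K)) (i : Fin 3) :
    rr i x ≤ Real.log (nn S) + finO S i x := by
  classical
  have h1 := Finset.sum_filter_add_sum_filter_not (side i x) (fun v => v ∉ S)
    (fun v : Pr K => Real.log (Nv v))
  have h2 : ∑ v ∈ (side i x).filter (fun v => v ∉ S), Real.log (Nv v) ≤ finO S i x :=
    Finset.sum_le_sum fun v hv => log_le_df hx (Finset.mem_filter.1 hv).1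
  have h3 : ∑ v ∈ (side i x).filter (fun v => ¬ v ∉ S), Real.log (Nv v) ≤ Real.log (nn S) := by
    rw [log_nn]
    refine Finset.sum_le_sum_of_subset_of_nonneg ?_ fun v _ _ => (log_Nv_pos' v).le
    intro v hv
    exact not_not.1 (Finset.mem_filter.1 hv).2
  have h4 : rr i x = ∑ v ∈ side i x, Real.log (Nv v) := rfl
  rw [h4, ← h1]
  linarith

theorem nn_sp_leO {x : K} (hx : Pt x) (S : Finset (Pr K)) {φ i j : Fin 3} (h1 : φ ≠ i)
    (h2 : i ≠ j) (h3 : φ ≠ j) {a b : ℝ} (ha : finO S φ x ≤ a) (hb : rr i x + rr j x ≤ b) :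
    nn (sp x) ≤ nn S * Real.exp (a + b) := by
  have h4 : nn (sp x) ≤ Real.exp (Real.log (nn S) + (a + b)) := by
    rw [← Real.log_le_iff_le_exp (nn_pos _), ← rr_sum' hx, three_cases h1 h2 h3 (fun i => rr i x)]
    have := rr_le_finO hx S φ
    linarith
  rwa [Real.exp_add, Real.exp_log (nn_pos _)] at h4

theorem light_three {k : ℕ} {x : K} (hx : Pt x) {φ i j : Fin 3} (h1 : φ ≠ i)
    (h2 : i ≠ j) (h3 : φ ≠ j) {S S0 : Finset (Pr K)} (hi : side i x ⊆ S) (hj : side j x ⊆ S)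
    (h0 : S0 ⊆ S) (hf : finO S0 φ x ≤ (1 - 1 / (k : ℝ)) * hgt x) : Light k S x := by
  classical
  show out S x ≤ (1 - 1 / (k : ℝ)) * hgt x
  refine le_trans ?_ hf
  unfold out finO
  refine le_trans (Finset.sum_le_sum_of_subset_of_nonneg
    (t := (side φ x).filter (fun v => v ∉ S0)) ?_ fun v _ _ => gd_nonneg _ hx) ?_
  · intro v hv
    rw [Finset.mem_sdiff] at hv
    obtain ⟨m, hm⟩ := (mem_sp_iff hx v).1 hv.1
    rcases fin_cases3 h1 h2 h3 m with rfl | rfl | rfl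
    · exact Finset.mem_filter.2 ⟨hm, fun h => hv.2 (h0 h)⟩
    · exact absurd (hi hm) hv.2
    · exact absurd (hj hm) hv.2
  · exact le_of_eq (Finset.sum_congr rfl fun v hv => gd_eq hx (Finset.mem_filter.1 hv).1)

/-- **points a side of which has a bounded norm outside given primes**, by the radical of the two
other sides -/
theorem pairs_count (K : Type) [Field K] [NumberField K] (S0 : Finset (Pr K)) (B ε : ℝ)
    (hB : 1 ≤ B) (hε : 0 < ε) :
    ∃ D : ℝ, 0 < D ∧ ∀ X : ℝ, 1 ≤ X → ∀ M : ℝ, 1 ≤ M → M ≤ X →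
    ∀ F : Finset K, (∀ x ∈ F, Pt x ∧ ∃ φ i j : Fin 3, φ ≠ i ∧ i ≠ j ∧ φ ≠ j ∧
      finO S0 φ x ≤ B * Real.log X ∧ rr i x + rr j x ≤ Real.log M) →
    (F.card : ℝ) ≤ D * X ^ ε * M := by
  classical
  obtain ⟨h, r, Cc, εu, g, G⟩ := exists_GD K
  obtain ⟨k0, hk0⟩ : ∃ k0 : ℕ, 3 / ε ≤ k0 := exists_nat_ge _
  obtain ⟨k, hk⟩ : ∃ k, k = k0 + 9 := ⟨_, rfl⟩
  have hk9 : 9 ≤ k := by omega
  have hk1 : 1 ≤ k := by omega
  have hk9' : (9 : ℝ) ≤ k := by exact_mod_cast hk9
  have hkp : (0 : ℝ) < k := by exact_mod_cast hk1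
  have h1k : 0 < 1 / (k : ℝ) := by positivity
  have hkε : 3 / (k : ℝ) ≤ ε := by
    have h1 : 3 / ε ≤ (k : ℝ) := hk0.trans (by rw [hk]; push_cast; linarith)
    rw [div_le_iff₀ hε] at h1
    rw [div_le_iff₀ hkp]
    linarith
  obtain ⟨D0, hD0, hall'⟩ := mainK K 1 one_pos
  obtain ⟨η, hη, L1, hL1, C1, hC1, hsmall⟩ := small_genK K ε hε
  obtain ⟨Ch, hCh, Xh, hXh, hhuge⟩ := few_high G
  obtain ⟨D1, hD1, X1, hX1, hfam⟩ := Pool.Agent.Y492.fam_lightK K (k := k) (by omega) 9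
  obtain ⟨X2, hX2, hsets⟩ := card_setsM K hk1
  obtain ⟨N, hN⟩ : ∃ N, N = nn S0 := ⟨_, rfl⟩
  have hN1 : 1 ≤ N := by rw [hN]; exact one_le_nn _
  have hN0 : 0 < N := by linarith
  obtain ⟨X0, hX0e⟩ : ∃ X0, X0 = max (max (max X1 X2) N)
    (max Xh (Real.exp (L1 + 2 * B + (B + 2) ^ 8))) := ⟨_, rfl⟩
  have hX016 : 16 ≤ X0 := by
    rw [hX0e]
    exact hX1.trans ((le_max_left _ _).trans ((le_max_left _ _).trans (le_max_left _ _)))
  have hX0p : 0 < X0 := by linarith
  obtain ⟨DD, hDD⟩ : ∃ DD, DD = C1 + Ch + D1 := ⟨_, rfl⟩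
  have hDD0 : 0 < DD := by rw [hDD]; positivity
  refine ⟨D0 * (N * X0 ^ (B + 1)) ^ (2 / 3 + 1 : ℝ) + DD, by positivity,
    fun X hX M hM1 hMX F hF => ?_⟩
  have hXp : 0 < X := by linarith
  have hM0 : 0 < M := by linarith
  have hXe1 : 1 ≤ X ^ ε := Real.one_le_rpow hX hε.le
  have hY0 : 1 ≤ X ^ ε * M := one_le_mul_of_one_le_of_one_le hXe1 hM1
  have hlogM : Real.log M ≤ Real.log X := Real.log_le_log hM0 hMX
  have hlogM0 : 0 ≤ Real.log M := Real.log_nonneg hM1
  have hnn : ∀ x ∈ F, nn (sp x) ≤ N * X ^ (B + 1) := by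
    intro x hx
    obtain ⟨a0, φ, i, j, a1, a2, a3, a4, a5⟩ := hF x hx
    refine (nn_sp_leO a0 S0 a1 a2 a3 a4 (a5.trans hlogM)).trans (le_of_eq ?_)
    rw [Real.rpow_def_of_pos hXp, hN]
    congr 2
    ring
  rcases lt_or_ge X X0 with hsm | hlarge
  · -- small `X`
    have hXB1 : 1 ≤ N * X ^ (B + 1) :=
      one_le_mul_of_one_le_of_one_le hN1 (Real.one_le_rpow hX (by linarith))
    have h1 := hall' (N * X ^ (B + 1)) hXB1 F fun x hx => ⟨(hF x hx).1, hnn x hx⟩
    have h2 : (N * X ^ (B + 1)) ^ (2 / 3 + 1 : ℝ) ≤ (N * X0 ^ (B + 1)) ^ (2 / 3 + 1 : ℝ) :=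
      Real.rpow_le_rpow (by positivity) (mul_le_mul_of_nonneg_left
        (Real.rpow_le_rpow hXp.le hsm.le (by linarith)) hN0.le) (by norm_num)
    have h3 : D0 * (N * X ^ (B + 1)) ^ (2 / 3 + 1 : ℝ) ≤
        D0 * (N * X0 ^ (B + 1)) ^ (2 / 3 + 1 : ℝ) := mul_le_mul_of_nonneg_left h2 hD0.le
    have h4 : 0 ≤ D0 * (N * X0 ^ (B + 1)) ^ (2 / 3 + 1 : ℝ) := by positivity
    rw [mul_assoc]
    nlinarith
  have hXX : max (max X1 X2) N ≤ X := by
    rw [hX0e] at hlarge
    exact (le_max_left _ _).trans hlarge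
  have hXX1 : X1 ≤ X := ((le_max_left _ _).trans (le_max_left _ _)).trans hXX
  have hXX2 : X2 ≤ X := ((le_max_right _ _).trans (le_max_left _ _)).trans hXX
  have hXN : N ≤ X := (le_max_right _ _).trans hXX
  have hXX5 : Xh ≤ X := by
    rw [hX0e] at hlarge
    exact ((le_max_left _ _).trans (le_max_right _ _)).trans hlarge
  have hXL1 : Real.exp (L1 + 2 * B + (B + 2) ^ 8) ≤ X := by
    rw [hX0e] at hlarge
    exact ((le_max_right _ _).trans (le_max_right _ _)).trans hlarge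
  obtain ⟨L, hL⟩ : ∃ L, L = Real.log X := ⟨_, rfl⟩
  have hLL2 : L1 + 2 * B + (B + 2) ^ 8 ≤ L := by
    rw [hL, Real.le_log_iff_exp_le hXp]; exact hXL1
  have hB8 : 0 ≤ (B + 2) ^ 8 := by positivity
  have hLL1 : L1 ≤ L := by linarith
  have hL1' : 1 ≤ L := hL1.trans hLL1
  have hL0 : 0 < L := by linarith
  have hL2B : 2 * B ≤ L := by linarith
  have hLB8 : (B + 2) ^ 8 ≤ L := by linarith
  obtain ⟨l0, hl0⟩ : ∃ l0, l0 = L ^ (2 + η) := ⟨_, rfl⟩
  have hl0L : 2 * B * L ≤ l0 := by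
    have h1 : L ^ (2 : ℝ) ≤ L ^ (2 + η) := Real.rpow_le_rpow_of_exponent_le hL1' (by linarith)
    rw [hl0]
    refine le_trans ?_ h1
    rw [Real.rpow_two, sq]
    exact mul_le_mul_of_nonneg_right hL2B hL0.le
  have hBL : 0 ≤ B * L := by positivity
  have hBL1 : L ≤ B * L := le_mul_of_one_le_left hL0.le hB
  -- the parts
  obtain ⟨F1, hF1⟩ : ∃ F1, F1 = F.filter fun x => hgt x ≤ l0 := ⟨_, rfl⟩
  obtain ⟨F2, hF2⟩ : ∃ F2, F2 = F.filter fun x => Real.exp (L ^ 9) < hgt x := ⟨_, rfl⟩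
  obtain ⟨F3, hF3⟩ : ∃ F3, F3 = F.filter fun x => l0 < hgt x ∧ hgt x ≤ Real.exp (L ^ 9) :=
    ⟨_, rfl⟩
  have hcov : F ⊆ F1 ∪ (F2 ∪ F3) := by
    intro x hx
    rcases le_or_gt (hgt x) l0 with h1 | h1
    · refine Finset.mem_union_left _ ?_
      rw [hF1]
      exact Finset.mem_filter.2 ⟨hx, h1⟩
    refine Finset.mem_union_right _ ?_
    rcases lt_or_ge (Real.exp (L ^ 9)) (hgt x) with h2 | h2
    · refine Finset.mem_union_left _ ?_
      rw [hF2]
      exact Finset.mem_filter.2 ⟨hx, h2⟩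
    refine Finset.mem_union_right _ ?_
    rw [hF3]
    exact Finset.mem_filter.2 ⟨hx, h1, h2⟩
  have d1 : (F1.card : ℝ) ≤ C1 * (X ^ ε * M) := by
    have h1 := hsmall X hX (by rw [← hL]; exact hLL1) (Real.log M) hlogM0 hlogM F1
      (fun x hx => by
        rw [hF1, mem_filter] at hx
        obtain ⟨a0, φ, i, j, a1, a2, a3, a4, a5⟩ := hF x hx.1
        exact ⟨a0, ⟨i, j, a2, a5⟩, by rw [← hL, ← hl0]; exact hx.2⟩)
    rw [Real.exp_log hM0, mul_assoc] at h1
    exact h1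
  have d2 : (F2.card : ℝ) ≤ Ch := by
    have e0 : X ^ (B + 2) = X * X ^ (B + 1) := by
      rw [show B + 2 = 1 + (B + 1) by ring, Real.rpow_add hXp, Real.rpow_one]
    have e1 : Xh ≤ X ^ (B + 2) := hXX5.trans (by
      calc X = X ^ (1 : ℝ) := (Real.rpow_one X).symm
        _ ≤ X ^ (B + 2) := Real.rpow_le_rpow_of_exponent_le hX (by linarith))
    refine hhuge (X ^ (B + 2)) e1 F2 (fun x hx => ?_)
    rw [hF2, mem_filter] at hx
    refine ⟨(hF x hx.1).1, (hnn x hx.1).trans ?_, lt_of_le_of_lt ?_ hx.2⟩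
    · rw [e0]
      exact mul_le_mul_of_nonneg_right hXN (by positivity)
    rw [Real.log_rpow hXp, ← hL, Real.exp_le_exp, mul_pow]
    calc (B + 2) ^ 8 * L ^ 8 ≤ L * L ^ 8 := mul_le_mul_of_nonneg_right hLB8 (by positivity)
      _ = L ^ 9 := by ring
  -- the middle range
  have d3 : (F3.card : ℝ) ≤ D1 * (X ^ ε * M) := by
    have hex : ∀ x : K, ∃ S : Finset (Pr K), x ∈ F3 → nn S ≤ M ∧ Light k (S ∪ S0) x := by
      intro x
      by_cases hx : x ∈ F3
      · have hx' := hx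
        rw [hF3, mem_filter] at hx'
        obtain ⟨hxF, b1, b2⟩ := hx'
        obtain ⟨a0, φ, i, j, a1, a2, a3, a4, a5⟩ := hF x hxF
        refine ⟨side i x ∪ side j x, fun _ => ⟨?_, light_three a0 a1 a2 a3
          (Finset.subset_union_left.trans Finset.subset_union_left)
          (Finset.subset_union_right.trans Finset.subset_union_left)
          Finset.subset_union_right ?_⟩⟩
        · rw [nn_two a2, ← Real.exp_log hM0]
          exact Real.exp_le_exp.2 a5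
        · rw [← hL] at a4
          have h1 : 1 / (k : ℝ) ≤ 1 / 2 :=
            div_le_div_of_nonneg_left one_pos.le (by norm_num) (by linarith)
          have h2 : 1 / 2 ≤ 1 - 1 / (k : ℝ) := by linarith
          have h3 : 2 * (B * L) ≤ hgt x := by linarith
          nlinarith
      · exact ⟨∅, fun h => absurd h hx⟩
    choose Sx hSx using hex
    obtain ⟨W, hW⟩ : ∃ W, W = F3.image Sx := ⟨_, rfl⟩
    obtain ⟨V, hV⟩ : ∃ V, V = W.image fun S => S ∪ S0 := ⟨_, rfl⟩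
    have hWm : ∀ S ∈ W, nn S ≤ M := by
      intro S hS
      rw [hW, Finset.mem_image] at hS
      obtain ⟨x, hxF, rfl⟩ := hS
      exact (hSx x hxF).1
    have hWc : (W.card : ℝ) ≤ M * X ^ (1 / (k : ℝ)) := hsets X hXX2 M hM1 hMX W hWm
    have hVc : (V.card : ℝ) ≤ M * X ^ (1 / (k : ℝ)) := by
      refine le_trans ?_ hWc
      rw [hV]
      exact_mod_cast Finset.card_image_le
    have h1 := hfam X hXX1 V (by
      intro S hS
      rw [hV, Finset.mem_image] at hS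
      obtain ⟨T, hT, rfl⟩ := hS
      have e1 : Real.log (nn (T ∪ S0)) ≤ Real.log (nn T * nn S0) := by
        rw [Real.log_mul (nn_pos _).ne' (nn_pos _).ne', log_nn, log_nn, log_nn]
        exact Pool.Agent.TH876.KR.cho_union T S0
      have e2 := (Real.log_le_log_iff (nn_pos _) (mul_pos (nn_pos _) (nn_pos _))).1 e1
      refine e2.trans ?_
      rw [sq, ← hN]
      exact mul_le_mul ((hWm T hT).trans hMX) hXN hN0.le hXp.le) F3 (by
      intro x hx
      have hx' := hx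
      rw [hF3, mem_filter] at hx'
      obtain ⟨hxF, b1, b2⟩ := hx'
      refine ⟨(hF x hxF).1, ?_, ?_, Sx x ∪ S0, ?_, (hSx x hx).2⟩
      · rw [← hL]
        linarith
      · rw [← hL]
        exact b2
      · rw [hV, hW]
        exact Finset.mem_image_of_mem _ (Finset.mem_image_of_mem _ hx))
    calc (F3.card : ℝ) ≤ D1 * V.card * X ^ (2 / (k : ℝ)) := h1
      _ ≤ D1 * (M * X ^ (1 / (k : ℝ))) * X ^ (2 / (k : ℝ)) := by
          refine mul_le_mul_of_nonneg_right ?_ (by positivity)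
          exact mul_le_mul_of_nonneg_left hVc hD1.le
      _ = D1 * (X ^ (3 / (k : ℝ)) * M) := by
          have e : X ^ (3 / (k : ℝ)) = X ^ (1 / (k : ℝ)) * X ^ (2 / (k : ℝ)) := by
            rw [← Real.rpow_add hXp]
            congr 1
            ring
          rw [e]
          ring
      _ ≤ D1 * (X ^ ε * M) := by
          refine mul_le_mul_of_nonneg_left (mul_le_mul_of_nonneg_right ?_ hM0.le) hD1.le
          exact Real.rpow_le_rpow_of_exponent_le hX hkε
  have hcard : (F.card : ℝ) ≤ F1.card + (F2.card + F3.card) := by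
    have h1 := Finset.card_le_card hcov
    have h2 := Finset.card_union_le F1 (F2 ∪ F3)
    have h3 := Finset.card_union_le F2 F3
    have h6 : F.card ≤ F1.card + (F2.card + F3.card) := by omega
    exact_mod_cast h6
  have hCh' : Ch ≤ Ch * (X ^ ε * M) := le_mul_of_one_le_right hCh.le hY0
  have hPP : 0 ≤ D0 * (N * X0 ^ (B + 1)) ^ (2 / 3 + 1 : ℝ) * (X ^ ε * M) := by positivity
  calc (F.card : ℝ) ≤ C1 * (X ^ ε * M) + (Ch * (X ^ ε * M) + D1 * (X ^ ε * M)) := by
        linarith only [hcard, d1, d2, d3, hCh']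
    _ = DD * (X ^ ε * M) := by rw [hDD]; ring
    _ ≤ D0 * (N * X0 ^ (B + 1)) ^ (2 / 3 + 1 : ℝ) * (X ^ ε * M) + DD * (X ^ ε * M) := by
        linarith only [hPP]
    _ = _ := by ring

end Pool.Agent.T6.H44.MEM
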