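import Pool.Agent.T6.H44.MEM.Fam

/-!
Points of `a + b + c = 0` over a number field, of all heights, one side of which is composed of
given primes: the count by the radical.
-/

set_option autoImplicit false

namespace Pool.Agent.T6.H44.MEM

open Finset NumberField IsDedekindDomain Pool.Agent.H691R3 Pool.Agent.TH876.Loc
open Pool.Agent.TH876.KR (InP aw log_Nv_pos' log_nn side mem_side df_eq_zero Light Sc rho rho_gt
  scales all_heights rr_sum' side_sub rr rr_nonneg side_uniq mem_sp_iff side_sum df_int side_disj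
  gd_eq cho_max cho_part cho_union ChoG)
open Pool.Agent.Y728 Pool.Agent.T6.H44.DIV

variable {K : Type} [Field K] [NumberField K]

theorem nn_union_le [DecidableEq (Pr K)] (S T : Finset (Pr K)) : nn (S ∪ T) ≤ nn S * nn T := by
  have h1 := cho_union S T
  rw [← log_nn, ← log_nn, ← log_nn, ← Real.log_mul (nn_pos _).ne' (nn_pos _).ne'] at h1
  exact (Real.log_le_log_iff (nn_pos _) (mul_pos (nn_pos _) (nn_pos _))).1 h1

theorem sum_pow_union [DecidableEq (Pr K)] (U W : Finset (Finset (Pr K))) (S0 : Finset (Pr K))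
    (hU : ∀ S ∈ U, ∃ T ∈ W, ∃ V ⊆ S0, S = T ∪ V) {z : ℝ} (hz : 1 ≤ z) :
    ∑ S ∈ U, z ^ S.card ≤ (2 ^ S0.card * z ^ S0.card) * ∑ T ∈ W, z ^ T.card := by
  have hz0 : 0 ≤ z := by linarith
  have h1 : U ⊆ (W ×ˢ S0.powerset).image fun p => p.1 ∪ p.2 := by
    intro S hS
    obtain ⟨T, hT, V, hV, rfl⟩ := hU S hS
    rw [Finset.mem_image]
    exact ⟨(T, V), Finset.mem_product.2 ⟨hT, Finset.mem_powerset.2 hV⟩, rfl⟩
  have h2 : ∑ S ∈ U, z ^ S.card ≤ ∑ S ∈ (W ×ˢ S0.powerset).image fun p => p.1 ∪ p.2, z ^ S.card :=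
    Finset.sum_le_sum_of_subset_of_nonneg h1 fun _ _ _ => by positivity
  have h3 : ∑ S ∈ (W ×ˢ S0.powerset).image fun p => p.1 ∪ p.2, z ^ S.card ≤
      ∑ p ∈ W ×ˢ S0.powerset, z ^ (p.1 ∪ p.2).card := by
    exact Finset.sum_image_le_of_nonneg fun _ _ => by positivity
  have h4 : ∑ p ∈ W ×ˢ S0.powerset, z ^ (p.1 ∪ p.2).card ≤
      ∑ p ∈ W ×ˢ S0.powerset, z ^ p.1.card * z ^ S0.card := by
    refine Finset.sum_le_sum fun p hp => ?_
    have hp2 := Finset.mem_powerset.1 (Finset.mem_product.1 hp).2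
    rw [← pow_add]
    refine pow_le_pow_right₀ hz ?_
    have e1 := Finset.card_union_le p.1 p.2
    have e2 := Finset.card_le_card hp2
    omega
  have h5 : ∑ p ∈ W ×ˢ S0.powerset, z ^ p.1.card * z ^ S0.card =
      (2 ^ S0.card * z ^ S0.card) * ∑ T ∈ W, z ^ T.card := by
    rw [Finset.sum_product, Finset.mul_sum]
    refine Finset.sum_congr rfl fun T _ => ?_
    show ∑ _y ∈ S0.powerset, z ^ T.card * z ^ S0.card = _
    rw [Finset.sum_const, Finset.card_powerset, nsmul_eq_mul]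
    push_cast
    ring
  linarith

/-- **points one side of which is composed of given primes**, by their radical -/
theorem unit_member (K : Type) [Field K] [NumberField K] (S0 : Finset (Pr K)) (ε : ℝ)
    (hε : 0 < ε) : ∃ D : ℝ, 0 < D ∧ ∀ X : ℝ, 1 ≤ X →
    ∀ F : Finset K, (∀ x ∈ F, Pt x ∧ (∃ φ : Fin 3, side φ x ⊆ S0) ∧ nn (sp x) ≤ X) →
    (F.card : ℝ) ≤ D * X ^ (1 / 2 + ε) := by
  classical
  obtain ⟨h, r, Cc, εu, g, G⟩ := exists_GD K
  obtain ⟨k0, hk0⟩ : ∃ k0 : ℕ, 6 / ε ≤ k0 := exists_nat_ge _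
  obtain ⟨k, hk⟩ : ∃ k, k = k0 + 18 := ⟨_, rfl⟩
  have hk9 : 18 ≤ k := by omega
  have hk1 : 1 ≤ k := by omega
  have hk9' : (18 : ℝ) ≤ k := by exact_mod_cast hk9
  have hkp : (0 : ℝ) < k := by exact_mod_cast hk1
  have h1k : 0 < 1 / (k : ℝ) := by positivity
  have h1k18 : 1 / (k : ℝ) ≤ 1 / 18 := div_le_div_of_nonneg_left one_pos.le (by norm_num) hk9'
  have hkε : 6 / (k : ℝ) ≤ ε := by
    have h1 : 6 / ε ≤ (k : ℝ) := hk0.trans (by rw [hk]; push_cast; linarith)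
    rw [div_le_iff₀ hε] at h1
    rw [div_le_iff₀ hkp]
    linarith
  obtain ⟨D0, hD0, hall'⟩ := mainK K 1 one_pos
  obtain ⟨η, hη, L1, hL1, C1, hC1, hsmall⟩ := small_genK K ε hε
  obtain ⟨Ch, hCh, Xh, hXh, hhuge⟩ := few_high G
  have hfamL : FamL K k 8 := Pool.Agent.Y492.fam_lightK K (by omega) 8
  obtain ⟨C, hC, D1, hD1, X1, hX1, hhigh⟩ := high_fam G hk1 8 hfamL
  obtain ⟨D2, hD2, X2, hX2, hlow'⟩ := low_fam K (k := k) (by omega) hC hη
  obtain ⟨D3, hD3, X3, hX3, hfam⟩ := hfamL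
  obtain ⟨X4, hX4, hsets⟩ := card_setsM K hk1
  obtain ⟨D4, hD4, hlog⟩ := log_pow_leK 8 h1k
  obtain ⟨D5, hD5, hlog5⟩ := log_pow_leK S0.card h1k
  obtain ⟨C2, hC2⟩ : ∃ C2 : ℝ, C2 = C * 2 ^ (99 * k) := ⟨_, rfl⟩
  have h2k : (1 : ℝ) ≤ 2 ^ (99 * k) := one_le_pow₀ (by norm_num)
  have hC2C : C ≤ C2 := by
    rw [hC2]
    exact le_mul_of_one_le_right (by linarith) h2k
  have hC21 : 1 ≤ C2 := hC.trans hC2C
  obtain ⟨X5, hX5, hsum⟩ := Pool.Agent.Y96.sum_bigK K C2 (1 / (k : ℝ)) hC21 h1k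
  have hρ := rho_gt hk1
  have hlρ : 0 < Real.log (rho k) := Real.log_pos hρ
  obtain ⟨N, hN⟩ : ∃ N, N = nn S0 := ⟨_, rfl⟩
  have hN1 : 1 ≤ N := by rw [hN]; exact one_le_nn _
  have hN0 : 0 < N := by linarith
  obtain ⟨s, hs⟩ : ∃ s, s = S0.card := ⟨_, rfl⟩
  -- the constant of the sum over the sets
  obtain ⟨E, hE⟩ : ∃ E : ℝ, E = 2 ^ s * C2 ^ s * D5 := ⟨_, rfl⟩
  have hE0 : 0 < E := by rw [hE]; positivity
  obtain ⟨X0, hX0e⟩ : ∃ X0, X0 = max (max (max X1 X2) (max X3 X4)) (max (max X5 Xh)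
      (max (Real.exp L1) (max (N ^ 6) (E ^ 4)))) := ⟨_, rfl⟩
  have hX0l : ∀ X, X0 ≤ X → X1 ≤ X ∧ X2 ≤ X ∧ X3 ≤ X ∧ X4 ≤ X ∧ X5 ≤ X ∧ Xh ≤ X ∧
      Real.exp L1 ≤ X ∧ N ^ 6 ≤ X ∧ E ^ 4 ≤ X := by
    intro X hX
    rw [hX0e] at hX
    simp only [max_le_iff] at hX
    tauto
  have hX016 : 16 ≤ X0 := hX1.trans (hX0l X0 le_rfl).1
  have hX0p : 0 < X0 := by linarith
  obtain ⟨DD, hDD⟩ : ∃ DD, DD = C1 * N + Ch + D3 * 2 ^ s + D1 * 2 ^ s +
      (1 + 1 / Real.log (rho k)) * D4 * D2 * E := ⟨_, rfl⟩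
  have hlρ' : 0 < 1 / Real.log (rho k) := by positivity
  have hDD0 : 0 < DD := by rw [hDD]; positivity
  refine ⟨D0 * X0 ^ (2 / 3 + 1 : ℝ) + DD, by positivity, fun X hX F hF => ?_⟩
  have hXp : 0 < X := by linarith
  obtain ⟨Y, hY⟩ : ∃ Y, Y = X ^ (1 / 2 + ε) := ⟨_, rfl⟩
  have hY1 : 1 ≤ Y := by rw [hY]; exact Real.one_le_rpow hX (by positivity)
  rw [← hY]
  rcases lt_or_ge X X0 with hsm | hlarge
  · -- small `X`
    have h1 := hall' X hX F fun x hx => ⟨(hF x hx).1, (hF x hx).2.2⟩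
    have h2 : X ^ (2 / 3 + 1 : ℝ) ≤ X0 ^ (2 / 3 + 1 : ℝ) :=
      Real.rpow_le_rpow hXp.le hsm.le (by norm_num)
    have h3 : D0 * X ^ (2 / 3 + 1 : ℝ) ≤ D0 * X0 ^ (2 / 3 + 1 : ℝ) :=
      mul_le_mul_of_nonneg_left h2 hD0.le
    have h4 : 0 ≤ D0 * X0 ^ (2 / 3 + 1 : ℝ) := by positivity
    nlinarith
  obtain ⟨hXX1, hXX2, hXX3, hXX4, hXX5, hXXh, hXL1, hXN, hXE⟩ := hX0l X hlarge
  obtain ⟨L, hL⟩ : ∃ L, L = Real.log X := ⟨_, rfl⟩
  have hLL1 : L1 ≤ L := by rw [hL, Real.le_log_iff_exp_le hXp]; exact hXL1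
  have hL1' : 1 ≤ L := hL1.trans hLL1
  have hL0 : 0 < L := by linarith
  obtain ⟨l0, hl0⟩ : ∃ l0, l0 = L ^ (2 + η) := ⟨_, rfl⟩
  have hl0L : L ≤ l0 := by
    have h1 : L ^ (1 : ℝ) ≤ L ^ (2 + η) := Real.rpow_le_rpow_of_exponent_le hL1' (by linarith)
    rw [Real.rpow_one] at h1
    rw [hl0]
    exact h1
  have hl01 : 1 ≤ l0 := by linarith
  have hl00 : 0 < l0 := by linarith
  obtain ⟨H, hH⟩ : ∃ H, H = Real.exp (L ^ 8) := ⟨_, rfl⟩
  have hlH : Real.log H = L ^ 8 := by rw [hH, Real.log_exp]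
  have hH1 : 1 ≤ H := by
    rw [hH]
    exact Real.one_le_exp (by positivity)
  have hlogH : 1 + Real.log H ≤ D4 * X ^ (1 / (k : ℝ)) := by
    rw [hlH, hL]
    exact hlog X hX
  have hN6 : N ≤ X ^ (1 / 6 : ℝ) := by
    have h1 : (N ^ 6) ^ (1 / 6 : ℝ) ≤ X ^ (1 / 6 : ℝ) :=
      Real.rpow_le_rpow (by positivity) hXN (by norm_num)
    rwa [← Real.rpow_natCast N 6, ← Real.rpow_mul hN0.le,
      show (((6 : ℕ) : ℝ)) * (1 / 6) = 1 by norm_num, Real.rpow_one] at h1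
  have hE4 : E ≤ X ^ (1 / 4 : ℝ) := by
    have h1 : (E ^ 4) ^ (1 / 4 : ℝ) ≤ X ^ (1 / 4 : ℝ) :=
      Real.rpow_le_rpow (by positivity) hXE (by norm_num)
    rwa [← Real.rpow_natCast E 4, ← Real.rpow_mul hE0.le,
      show (((4 : ℕ) : ℝ)) * (1 / 4) = 1 by norm_num, Real.rpow_one] at h1
  obtain ⟨M, hM⟩ : ∃ M, M = X ^ (1 / 2 + 1 / (k : ℝ)) := ⟨_, rfl⟩
  have hM1 : 1 ≤ M := by rw [hM]; exact Real.one_le_rpow hX (by positivity)
  have hMX : M ≤ X := by
    rw [hM]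
    calc X ^ (1 / 2 + 1 / (k : ℝ)) ≤ X ^ (1 : ℝ) :=
          Real.rpow_le_rpow_of_exponent_le hX (by linarith)
      _ = X := Real.rpow_one X
  have hM0 : 0 < M := by linarith
  have hMN : M * N ≤ X := by
    calc M * N ≤ X ^ (1 / 2 + 1 / (k : ℝ)) * X ^ (1 / 6 : ℝ) := by
          rw [hM]
          exact mul_le_mul_of_nonneg_left hN6 (by positivity)
      _ = X ^ (1 / 2 + 1 / (k : ℝ) + 1 / 6) := by rw [← Real.rpow_add hXp]
      _ ≤ X ^ (1 : ℝ) := Real.rpow_le_rpow_of_exponent_le hX (by linarith)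
      _ = X := Real.rpow_one X
  have hC2L : 1 ≤ C2 * L := one_le_mul_of_one_le_of_one_le hC21 hL1'
  have hC2s : (C2 * L) ^ s ≤ C2 ^ s * D5 * X ^ (1 / (k : ℝ)) := by
    have h1 := hlog5 X hX
    rw [← hs, ← hL] at h1
    rw [mul_pow, mul_assoc]
    refine mul_le_mul_of_nonneg_left ?_ (by positivity)
    linarith
  -- the choice of the sets
  obtain ⟨F0, hF0⟩ : ∃ F0, F0 = F.filter fun x => l0 < hgt x ∧ hgt x ≤ H := ⟨_, rfl⟩
  have hex : ∀ x : K, ∃ T V : Finset (Pr K), x ∈ F0 → nn T ≤ M ∧ V ⊆ S0 ∧ ChoG k (T ∪ V) x := by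
    intro x
    by_cases hx : x ∈ F0
    · have hx' := hx
      rw [hF0, mem_filter] at hx'
      obtain ⟨hxF, b1, b2⟩ := hx'
      obtain ⟨a0, ⟨φ, a1⟩, a2⟩ := hF x hxF
      obtain ⟨A, B, hAφ, hφB, hAB⟩ := others φ
      have hh0 : 0 < hgt x := by linarith
      obtain ⟨T, hT1, hT2⟩ := cho_two (k := k) (by omega) a0 hh0 hAB hφB.symm hAφ
      refine ⟨T, side φ x, fun _ => ⟨?_, a1, hT1⟩⟩
      have h3 := three_cases hAB hφB.symm hAφ (fun i => rr i x)
      have h4 := rr_sum' a0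
      have h5 := rr_nonneg φ x
      have h6 : Real.log (nn (sp x)) ≤ L := by
        rw [hL]
        exact Real.log_le_log (nn_pos _) a2
      have h7 : rr A x + rr B x ≤ L := by linarith
      rw [← Real.log_le_log_iff (nn_pos _) hM0, log_nn, hM, Real.log_rpow hXp, ← hL]
      exact hT2.trans (mul_le_mul_of_nonneg_left h7 (by positivity))
    · exact ⟨∅, ∅, fun h => absurd h hx⟩
  choose Tx Vx hTV using hex
  obtain ⟨W, hW⟩ : ∃ W, W = F0.image Tx := ⟨_, rfl⟩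
  obtain ⟨U, hU⟩ : ∃ U, U = F0.image fun x => Tx x ∪ Vx x := ⟨_, rfl⟩
  have hWM : ∀ T ∈ W, nn T ≤ M := by
    intro T hT
    rw [hW, Finset.mem_image] at hT
    obtain ⟨x, hx, rfl⟩ := hT
    exact (hTV x hx).1
  have hUM : ∀ S ∈ U, nn S ≤ X := by
    intro S hS
    rw [hU, Finset.mem_image] at hS
    obtain ⟨x, hx, rfl⟩ := hS
    obtain ⟨b1, b2, b3⟩ := hTV x hx
    calc nn (Tx x ∪ Vx x) ≤ nn (Tx x) * nn (Vx x) := nn_union_le _ _
      _ ≤ M * N := by
          refine mul_le_mul b1 ?_ (nn_pos _).le hM0.le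
          rw [hN]
          exact nn_mono b2
      _ ≤ X := hMN
  have hUW : ∀ S ∈ U, ∃ T ∈ W, ∃ V ⊆ S0, S = T ∪ V := by
    intro S hS
    rw [hU, Finset.mem_image] at hS
    obtain ⟨x, hx, rfl⟩ := hS
    exact ⟨Tx x, by rw [hW]; exact Finset.mem_image_of_mem _ hx, Vx x, (hTV x hx).2.1, rfl⟩
  have hUsum : ∀ z : ℝ, 1 ≤ z → ∑ S ∈ U, z ^ S.card ≤ (2 ^ s * z ^ s) * ∑ T ∈ W, z ^ T.card := by
    intro z hz
    rw [hs]
    exact sum_pow_union U W S0 hUW hz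
  have hUc : (U.card : ℝ) ≤ 2 ^ s * (M * X ^ (1 / (k : ℝ))) := by
    have h1 := hUsum 1 le_rfl
    simp only [one_pow, mul_one, Finset.sum_const, nsmul_eq_mul] at h1
    have h2 := hsets X hXX4 M hM1 hMX W hWM
    exact h1.trans (mul_le_mul_of_nonneg_left h2 (by positivity))
  have hUs : ∑ S ∈ U, (C2 * L) ^ S.card ≤ E * X ^ (1 / (k : ℝ)) * (M * X ^ (1 / (k : ℝ))) := by
    have h1 := hUsum (C2 * L) hC2L
    have h2 := hsum X hXX5 M hM1 hMX W hWM
    rw [← hL] at h2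
    refine h1.trans ?_
    have h3 : (2 : ℝ) ^ s * (C2 * L) ^ s ≤ E * X ^ (1 / (k : ℝ)) := by
      rw [hE]
      calc (2 : ℝ) ^ s * (C2 * L) ^ s ≤ 2 ^ s * (C2 ^ s * D5 * X ^ (1 / (k : ℝ))) :=
            mul_le_mul_of_nonneg_left hC2s (by positivity)
        _ = 2 ^ s * C2 ^ s * D5 * X ^ (1 / (k : ℝ)) := by ring
    refine mul_le_mul h3 h2 (Finset.sum_nonneg fun _ _ => by positivity) (by positivity)
  have hterm : ∀ S ∈ U, (C * L) ^ S.card * X ^ (1 / (k : ℝ)) ≤ X := by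
    intro S hS
    have e1 : (C * L) ^ S.card ≤ (C2 * L) ^ S.card :=
      pow_le_pow_left₀ (by positivity) (mul_le_mul_of_nonneg_right hC2C (by linarith)) _
    have e2 : (C2 * L) ^ S.card ≤ ∑ S ∈ U, (C2 * L) ^ S.card :=
      Finset.single_le_sum (f := fun S : Finset (Pr K) => (C2 * L) ^ S.card)
        (fun _ _ => by positivity) hS
    have e3 : (C * L) ^ S.card ≤ E * X ^ (1 / (k : ℝ)) * (M * X ^ (1 / (k : ℝ))) :=
      e1.trans (e2.trans hUs)
    calc (C * L) ^ S.card * X ^ (1 / (k : ℝ)) ≤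
        E * X ^ (1 / (k : ℝ)) * (M * X ^ (1 / (k : ℝ))) * X ^ (1 / (k : ℝ)) :=
          mul_le_mul_of_nonneg_right e3 (by positivity)
      _ ≤ X ^ (1 / 4 : ℝ) * X ^ (1 / (k : ℝ)) * (M * X ^ (1 / (k : ℝ))) * X ^ (1 / (k : ℝ)) := by
          refine mul_le_mul_of_nonneg_right ?_ (by positivity)
          refine mul_le_mul_of_nonneg_right ?_ (by positivity)
          exact mul_le_mul_of_nonneg_right hE4 (by positivity)
      _ = X ^ (1 / 4 + 1 / (k : ℝ) + (1 / 2 + 1 / (k : ℝ) + 1 / (k : ℝ)) + 1 / (k : ℝ)) := by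
          rw [hM, ← Real.rpow_add hXp, ← Real.rpow_add hXp, ← Real.rpow_add hXp,
            ← Real.rpow_add hXp]
      _ ≤ X ^ (1 : ℝ) := Real.rpow_le_rpow_of_exponent_le hX (by linarith)
      _ = X := Real.rpow_one X
  -- the parts
  obtain ⟨F1, hF1⟩ : ∃ F1, F1 = F.filter fun x => hgt x ≤ l0 := ⟨_, rfl⟩
  obtain ⟨F2, hF2⟩ : ∃ F2, F2 = F.filter fun x => H < hgt x := ⟨_, rfl⟩
  obtain ⟨FL, hFL⟩ : ∃ FL, FL = F0.filter fun x => Light k (Tx x ∪ Vx x) x := ⟨_, rfl⟩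
  obtain ⟨FI, hFI⟩ : ∃ FI, FI = F0.filter fun x => ∃ (A B E : Fin 3) (p : Pr K), A ≠ B ∧
    B ≠ E ∧ A ≠ E ∧ InP k (Tx x ∪ Vx x) A B E x p := ⟨_, rfl⟩
  obtain ⟨FH, hFH⟩ : ∃ FH, FH = FI.filter fun x =>
        (C * L) ^ (Tx x ∪ Vx x).card * X ^ (1 / (k : ℝ)) < hgt x := ⟨_, rfl⟩
  obtain ⟨FW, hFW⟩ : ∃ FW, FW = FI.filter fun x =>
        hgt x ≤ (C * L) ^ (Tx x ∪ Vx x).card * X ^ (1 / (k : ℝ)) := ⟨_, rfl⟩
  have hcov : F ⊆ F1 ∪ (F2 ∪ (FL ∪ (FH ∪ FW))) := by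
    intro x hx
    rcases le_or_gt (hgt x) l0 with h1 | h1
    · refine Finset.mem_union_left _ ?_
      rw [hF1]
      exact Finset.mem_filter.2 ⟨hx, h1⟩
    refine Finset.mem_union_right _ ?_
    rcases lt_or_ge H (hgt x) with h2 | h2
    · refine Finset.mem_union_left _ ?_
      rw [hF2]
      exact Finset.mem_filter.2 ⟨hx, h2⟩
    refine Finset.mem_union_right _ ?_
    have hxF0 : x ∈ F0 := by
      rw [hF0]
      exact Finset.mem_filter.2 ⟨hx, h1, h2⟩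
    rcases (hTV x hxF0).2.2 with h3 | h3
    · refine Finset.mem_union_left _ ?_
      rw [hFL]
      exact Finset.mem_filter.2 ⟨hxF0, h3⟩
    refine Finset.mem_union_right _ ?_
    have hxFI : x ∈ FI := by
      rw [hFI]
      exact Finset.mem_filter.2 ⟨hxF0, h3⟩
    rcases lt_or_ge ((C * L) ^ (Tx x ∪ Vx x).card * X ^ (1 / (k : ℝ))) (hgt x) with h4 | h4
    · refine Finset.mem_union_left _ ?_
      rw [hFH]
      exact Finset.mem_filter.2 ⟨hxFI, h4⟩
    · refine Finset.mem_union_right _ ?_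
      rw [hFW]
      exact Finset.mem_filter.2 ⟨hxFI, h4⟩
  have hF0' : ∀ x ∈ F0, x ∈ F ∧ l0 < hgt x ∧ hgt x ≤ H := by
    intro x hx
    rw [hF0, mem_filter] at hx
    exact hx
  have hUmem : ∀ x ∈ F0, Tx x ∪ Vx x ∈ U := by
    intro x hx
    rw [hU]
    exact Finset.mem_image_of_mem _ hx
  have hexp : ∀ a : ℝ, a ≤ 6 → X ^ (1 / 2 + a / (k : ℝ)) ≤ Y := by
    intro a ha
    rw [hY]
    refine Real.rpow_le_rpow_of_exponent_le hX ?_
    have : a / (k : ℝ) ≤ 6 / k := div_le_div_of_nonneg_right ha hkp.le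
    linarith
  have d1 : (F1.card : ℝ) ≤ C1 * N * Y := by
    have hΛ : Real.log (N * X ^ (1 / 2 : ℝ)) = Real.log N + 1 / 2 * L := by
      rw [Real.log_mul hN0.ne' (by positivity), Real.log_rpow hXp, hL]
    have hNL : Real.log N ≤ 1 / 6 * L := by
      have := Real.log_le_log hN0 hN6
      rwa [Real.log_rpow hXp, ← hL] at this
    have hlN : 0 ≤ Real.log N := Real.log_nonneg hN1
    have h1 := hsmall X hX (by rw [← hL]; exact hLL1) (Real.log (N * X ^ (1 / 2 : ℝ)))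
      (by rw [hΛ]; positivity) (by rw [hΛ, ← hL]; linarith) F1
      (fun x hx => by
        rw [hF1, mem_filter] at hx
        obtain ⟨a0, ⟨φ, a1⟩, a2⟩ := hF x hx.1
        obtain ⟨A, B, hAφ, hφB, hAB⟩ := others φ
        have h3 := three_cases hAB hφB.symm hAφ (fun i => rr i x)
        have h4 := rr_sum' a0
        have h5 := rr_nonneg φ x
        have h6 : Real.log (nn (sp x)) ≤ L := by
          rw [hL]
          exact Real.log_le_log (nn_pos _) a2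
        have h7 : rr A x + rr B x ≤ L := by linarith
        have h8 : rr φ x ≤ Real.log N := by
          have : rr φ x = Real.log (nn (side φ x)) := by
            rw [log_nn]
            rfl
          rw [this, hN]
          exact Real.log_le_log (nn_pos _) (nn_mono a1)
        refine ⟨a0, ?_, by rw [← hL, ← hl0]; exact hx.2⟩
        rw [hΛ]
        rcases le_total (rr A x) (rr B x) with h9 | h9
        · exact ⟨φ, A, hAφ.symm, by linarith⟩
        · exact ⟨φ, B, hφB, by linarith⟩)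
    rw [Real.exp_log (by positivity)] at h1
    refine h1.trans (le_of_eq ?_)
    rw [hY, Real.rpow_add hXp]
    ring
  have d2 : (F2.card : ℝ) ≤ Ch := hhuge X hXXh F2 (fun x hx => by
      rw [hF2, mem_filter] at hx
      exact ⟨(hF x hx.1).1, (hF x hx.1).2.2, by rw [← hL, ← hH]; exact hx.2⟩)
  -- light points
  have dL : (FL.card : ℝ) ≤ D3 * 2 ^ s * Y := by
    have h1 := hfam X hXX3 U (fun S hS => (hUM S hS).trans (by
      rw [sq]
      exact le_mul_of_one_le_left hXp.le hX)) FL (fun x hx => by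
        rw [hFL, mem_filter] at hx
        obtain ⟨c1, c2⟩ := hx
        obtain ⟨b1, b2, b3⟩ := hF0' x c1
        refine ⟨(hF x b1).1, by rw [← hL]; linarith, by rw [← hL, ← hH]; exact b3,
          _, hUmem x c1, c2⟩)
    calc (FL.card : ℝ) ≤ D3 * U.card * X ^ (2 / (k : ℝ)) := h1
      _ ≤ D3 * (2 ^ s * (M * X ^ (1 / (k : ℝ)))) * X ^ (2 / (k : ℝ)) :=
          mul_le_mul_of_nonneg_right (mul_le_mul_of_nonneg_left hUc hD3.le) (by positivity)
      _ = D3 * 2 ^ s * X ^ (1 / 2 + 4 / (k : ℝ)) := by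
          have e : X ^ (1 / 2 + 4 / (k : ℝ)) = M * X ^ (1 / (k : ℝ)) * X ^ (2 / (k : ℝ)) := by
            rw [hM, ← Real.rpow_add hXp, ← Real.rpow_add hXp]
            congr 1
            ring
          rw [e]
          ring
      _ ≤ _ := mul_le_mul_of_nonneg_left (hexp 4 (by norm_num)) (by positivity)
  have hFI' : ∀ x ∈ FI, x ∈ F0 ∧ ∃ (A B E : Fin 3) (p : Pr K), A ≠ B ∧ B ≠ E ∧ A ≠ E ∧
      InP k (Tx x ∪ Vx x) A B E x p ∧ Nv p ≤ X := by
    intro x hx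
    rw [hFI, mem_filter] at hx
    obtain ⟨c1, A, B, E, p, c2, c3, c4, c5⟩ := hx
    refine ⟨c1, A, B, E, p, c2, c3, c4, c5, ?_⟩
    exact (Nv_le_nn (side_sub B x c5.pB)).trans (hF x (hF0' x c1).1).2.2
  -- large heights
  have dH : (FH.card : ℝ) ≤ D1 * 2 ^ s * Y := by
    have h1 := hhigh X hXX1 U hUM FH (fun x hx => by
      rw [hFH, mem_filter] at hx
      obtain ⟨c1, c2⟩ := hx
      obtain ⟨c3, A, B, E, p, c4, c5, c6, c7, c8⟩ := hFI' x c1
      obtain ⟨b1, b2, b3⟩ := hF0' x c3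
      rw [← hL]
      exact ⟨(hF x b1).1, by rw [← hH]; exact b3, _, hUmem x c3, A, B, E, p, c4, c5, c6, c7,
        c8, c2⟩)
    calc (FH.card : ℝ) ≤ D1 * U.card * X ^ (3 / (k : ℝ)) := h1
      _ ≤ D1 * (2 ^ s * (M * X ^ (1 / (k : ℝ)))) * X ^ (3 / (k : ℝ)) :=
          mul_le_mul_of_nonneg_right (mul_le_mul_of_nonneg_left hUc hD1.le) (by positivity)
      _ = D1 * 2 ^ s * X ^ (1 / 2 + 5 / (k : ℝ)) := by
          have e : X ^ (1 / 2 + 5 / (k : ℝ)) = M * X ^ (1 / (k : ℝ)) * X ^ (3 / (k : ℝ)) := by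
            rw [hM, ← Real.rpow_add hXp, ← Real.rpow_add hXp]
            congr 1
            ring
          rw [e]
          ring
      _ ≤ _ := mul_le_mul_of_nonneg_left (hexp 5 (by norm_num)) (by positivity)
  -- small heights
  have dW : (FW.card : ℝ) ≤ (1 + 1 / Real.log (rho k)) * D4 * D2 * E * Y := by
    rcases lt_or_ge H l0 with hHl | hHl
    · have : FW = ∅ := by
        rw [Finset.eq_empty_iff_forall_notMem]
        intro x hx
        rw [hFW, mem_filter] at hx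
        have := hF0' x (hFI' x hx.1).1
        linarith
      rw [this, Finset.card_empty, Nat.cast_zero]
      positivity
    obtain ⟨J, hJ, hcard⟩ := scales hk1 hl00 hHl FW (by
      intro x hx
      rw [hFW, mem_filter] at hx
      have := hF0' x (hFI' x hx.1).1
      exact ⟨this.2.1.le, this.2.2⟩)
    have h1 : ∀ j ∈ Finset.range (J + 1), ((FW.filter fun x => Sc k (l0 * rho k ^ j) x).card : ℝ) ≤
        D2 * E * X ^ (1 / 2 + 5 / (k : ℝ)) := by
      intro j _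
      have p1 : 1 ≤ rho k ^ j := one_le_pow₀ hρ.le
      have p2 : l0 ≤ l0 * rho k ^ j := le_mul_of_one_le_right hl00.le p1
      have h2 := hlow' X hXX2 U (fun S hS => ⟨hUM S hS, by rw [← hL]; exact hterm S hS⟩)
        (l0 * rho k ^ j) (by rw [← hL, ← hl0]; exact p2)
        (FW.filter fun x => Sc k (l0 * rho k ^ j) x) (by
        intro x hx
        obtain ⟨h2, h3⟩ := Finset.mem_filter.1 hx
        rw [hFW, mem_filter] at h2
        obtain ⟨c1, c2⟩ := h2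
        obtain ⟨c3, A, B, E, p, c4, c5, c6, c7, c8⟩ := hFI' x c1
        obtain ⟨b1, b2, b3⟩ := hF0' x c3
        refine ⟨(hF x b1).1, h3, _, hUmem x c3, A, B, E, p, c4, c5, c6, c7, c8, ?_⟩
        rw [← hL]
        exact h3.1.trans c2)
      rw [← hL, ← hC2] at h2
      refine h2.trans ?_
      calc D2 * X ^ (2 / (k : ℝ)) * ∑ S ∈ U, (C2 * L) ^ S.card ≤
          D2 * X ^ (2 / (k : ℝ)) * (E * X ^ (1 / (k : ℝ)) * (M * X ^ (1 / (k : ℝ)))) :=
            mul_le_mul_of_nonneg_left hUs (by positivity)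
        _ = D2 * E * X ^ (1 / 2 + 5 / (k : ℝ)) := by
            have e : X ^ (1 / 2 + 5 / (k : ℝ)) =
                X ^ (2 / (k : ℝ)) * (X ^ (1 / (k : ℝ)) * (M * X ^ (1 / (k : ℝ)))) := by
              rw [hM, ← Real.rpow_add hXp, ← Real.rpow_add hXp, ← Real.rpow_add hXp]
              congr 1
              ring
            rw [e]
            ring
    have h2 : (FW.card : ℝ) ≤ ∑ j ∈ Finset.range (J + 1),
        ((FW.filter fun x => Sc k (l0 * rho k ^ j) x).card : ℝ) := by exact_mod_cast hcard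
    have h4 := h2.trans (Finset.sum_le_sum h1)
    rw [Finset.sum_const, Finset.card_range, nsmul_eq_mul] at h4
    have hJ1 : ((J + 1 : ℕ) : ℝ) ≤ (1 + 1 / Real.log (rho k)) * D4 * X ^ (1 / (k : ℝ)) := by
      have e1 : rho k ^ J ≤ H := by
        refine le_trans ?_ hJ
        exact le_mul_of_one_le_left (by positivity) hl01
      have e2 := Real.log_le_log (by positivity) e1
      rw [Real.log_pow] at e2
      have e3 : (J : ℝ) ≤ 1 / Real.log (rho k) * Real.log H := by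
        rw [one_div, ← div_eq_inv_mul, le_div_iff₀ hlρ]
        exact e2
      have e4 : 0 ≤ Real.log H := Real.log_nonneg hH1
      calc ((J + 1 : ℕ) : ℝ) = (J : ℝ) + 1 := by push_cast; ring
        _ ≤ (1 + 1 / Real.log (rho k)) * (1 + Real.log H) := by
            have : (1 + 1 / Real.log (rho k)) * (1 + Real.log H) =
              1 + Real.log H + 1 / Real.log (rho k) + 1 / Real.log (rho k) * Real.log H := by ring
            rw [this]
            linarith only [e3, e4, hlρ']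
        _ ≤ (1 + 1 / Real.log (rho k)) * (D4 * X ^ (1 / (k : ℝ))) :=
            mul_le_mul_of_nonneg_left hlogH (by positivity)
        _ = _ := by ring
    have c0 : 0 ≤ (1 + 1 / Real.log (rho k)) * D4 * D2 * E := by positivity
    calc (FW.card : ℝ) ≤ ((J + 1 : ℕ) : ℝ) * (D2 * E * X ^ (1 / 2 + 5 / (k : ℝ))) := h4
      _ ≤ ((1 + 1 / Real.log (rho k)) * D4 * X ^ (1 / (k : ℝ))) *
            (D2 * E * X ^ (1 / 2 + 5 / (k : ℝ))) :=
          mul_le_mul_of_nonneg_right hJ1 (by positivity)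
      _ = (1 + 1 / Real.log (rho k)) * D4 * D2 * E * X ^ (1 / 2 + 6 / (k : ℝ)) := by
          have e : X ^ (1 / 2 + 6 / (k : ℝ)) = X ^ (1 / (k : ℝ)) * X ^ (1 / 2 + 5 / (k : ℝ)) := by
            rw [← Real.rpow_add hXp]
            congr 1
            ring
          rw [e]
          ring
      _ ≤ _ := mul_le_mul_of_nonneg_left (hexp 6 le_rfl) c0
  have hcard : (F.card : ℝ) ≤ F1.card + (F2.card + (FL.card + (FH.card + FW.card))) := by
    have h1 := Finset.card_le_card hcov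
    have h2 := Finset.card_union_le F1 (F2 ∪ (FL ∪ (FH ∪ FW)))
    have h3 := Finset.card_union_le F2 (FL ∪ (FH ∪ FW))
    have h4 := Finset.card_union_le FL (FH ∪ FW)
    have h5 := Finset.card_union_le FH FW
    have h6 : F.card ≤ F1.card + (F2.card + (FL.card + (FH.card + FW.card))) := by omega
    exact_mod_cast h6
  have hCh' : Ch ≤ Ch * Y := le_mul_of_one_le_right hCh.le hY1
  have hPP : 0 ≤ D0 * X0 ^ (2 / 3 + 1 : ℝ) * Y := by positivity
  calc (F.card : ℝ) ≤ C1 * N * Y + (Ch * Y + (D3 * 2 ^ s * Y + (D1 * 2 ^ s * Y +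
        (1 + 1 / Real.log (rho k)) * D4 * D2 * E * Y))) := by
        linarith only [hcard, d1, d2, dL, dH, dW, hCh']
    _ = DD * Y := by rw [hDD]; ring
    _ ≤ D0 * X0 ^ (2 / 3 + 1 : ℝ) * Y + DD * Y := by linarith only [hPP]
    _ = _ := by ring

end Pool.Agent.T6.H44.MEM
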